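import Mathlib
import Pool.Agent.helper69.SqFree.Fund

namespace Pool.Agent.helper38.SqFree2

open Pell

/-- The situation: `A * B ^ 2 = 4 ^ M + 1` with `M` even, at least `8`. -/
structure Ctx (M A : ℕ) (B : ℤ) : Prop where
  hM : 8 ≤ M
  hMe : Even M
  hB : 0 < B
  hAB : (A : ℤ) * B ^ 2 = 4 ^ M + 1

section elementary

lemma two_pow_dvd_of_cast {n k : ℕ} (hk : k ≤ n) (a : ℤ)
    (h : (2 ^ k : ZMod (2 ^ n)) ∣ (a : ZMod (2 ^ n))) : (2 ^ k : ℤ) ∣ a := by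
  obtain ⟨c, hc⟩ := h
  obtain ⟨c0, rfl⟩ := ZMod.intCast_surjective c
  have h1 : ((a - 2 ^ k * c0 : ℤ) : ZMod (2 ^ n)) = 0 := by
    push_cast
    rw [hc]; ring
  rw [ZMod.intCast_zmod_eq_zero_iff_dvd] at h1
  have h2 : (2 ^ k : ℤ) ∣ (((2 ^ n : ℕ)) : ℤ) := by
    push_cast
    exact pow_dvd_pow 2 hk
  have h3 : (2 ^ k : ℤ) ∣ a - 2 ^ k * c0 := h2.trans h1
  have h4 : (2 ^ k : ℤ) ∣ 2 ^ k * c0 := dvd_mul_right _ _
  have := dvd_add h3 h4
  simpa using this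

lemma cast_dvd_of_two_pow {n k : ℕ} (a : ℤ) (h : (2 ^ k : ℤ) ∣ a) :
    (2 ^ k : ZMod (2 ^ n)) ∣ (a : ZMod (2 ^ n)) := by
  obtain ⟨c, rfl⟩ := h
  refine ⟨(c : ZMod (2 ^ n)), ?_⟩
  push_cast
  ring

lemma odd_sum (h k : ℤ) (hh : Odd h) (hk : Odd k) (e : ℕ) (he : Odd e) :
    Odd (∑ i ∈ Finset.range e, h ^ i * k ^ (e - 1 - i)) := by
  rw [← ZMod.intCast_eq_one_iff_odd]
  push_cast
  have h1 : (h : ZMod 2) = 1 := ZMod.intCast_eq_one_iff_odd.mpr hh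
  have h2 : (k : ZMod 2) = 1 := ZMod.intCast_eq_one_iff_odd.mpr hk
  rw [h1, h2]
  simp only [one_pow, mul_one, Finset.sum_const, Finset.card_range, nsmul_eq_mul]
  exact (ZMod.natCast_eq_one_iff_odd).mpr he

/-- Odd powers are injective on odd residues modulo a power of two. -/
lemma odd_pow_inj (n : ℕ) (h k : ℤ) (hh : Odd h) (hk : Odd k) (e : ℕ) (he : Odd e)
    (hd : (2 ^ n : ℤ) ∣ h ^ e - k ^ e) : (2 ^ n : ℤ) ∣ h - k := by
  have h1 : (∑ i ∈ Finset.range e, h ^ i * k ^ (e - 1 - i)) * (h - k) = h ^ e - k ^ e :=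
    (Commute.all h k).geom_sum₂_mul e
  have h2 := odd_sum h k hh hk e he
  rw [← h1] at hd
  have h3 : IsCoprime (2 ^ n : ℤ) (∑ i ∈ Finset.range e, h ^ i * k ^ (e - 1 - i)) := by
    apply IsCoprime.pow_left
    rw [Int.isCoprime_iff_gcd_eq_one]
    obtain ⟨j, hj⟩ := h2
    rw [hj]
    have h4 : IsCoprime (2 : ℤ) (2 * j + 1) := ⟨-j, 1, by ring⟩
    exact Int.isCoprime_iff_gcd_eq_one.mp h4
  exact h3.dvd_of_dvd_mul_left hd

end elementary

namespace Ctx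

variable {M A : ℕ} {B : ℤ}

lemma four (M : ℕ) : (4 : ℤ) ^ M = (2 ^ M) ^ 2 := by
  rw [← pow_mul, mul_comm, pow_mul]; norm_num

lemma B_odd (c : Ctx M A B) : Odd B := by
  have h := c.hAB
  have h1 : Odd ((A : ℤ) * B ^ 2) := by
    rw [h]
    refine ⟨2 * 4 ^ (M - 1), ?_⟩
    have : M = (M - 1) + 1 := by have := c.hM; omega
    conv_lhs => rw [this]
    rw [pow_succ]; ring
  have h2 : Odd (B ^ 2) := (Int.odd_mul.mp h1).2
  exact (Int.odd_pow.mp h2).resolve_right (by norm_num)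

lemma A_mod (c : Ctx M A B) : (8 : ℤ) ∣ (A : ℤ) - 1 := by
  obtain ⟨k, hk⟩ := c.B_odd
  have h := c.hAB
  have h1 : (8 : ℤ) ∣ 4 ^ M := by
    have : M = (M - 2) + 2 := by have := c.hM; omega
    rw [this, pow_add]
    exact Dvd.dvd.mul_left (by norm_num) _
  have h2 : (8 : ℤ) ∣ B ^ 2 - 1 := by
    rw [hk]
    have : (2 * k + 1) ^ 2 - 1 = 4 * (k * (k + 1)) := by ring
    rw [this]
    obtain ⟨j, hj⟩ := Int.even_mul_succ_self k
    rw [hj]
    exact ⟨j, by ring⟩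
  obtain ⟨u, hu⟩ := h1
  obtain ⟨v, hv⟩ := h2
  refine ⟨u - A * v, ?_⟩
  have : B ^ 2 = 8 * v + 1 := by linarith
  rw [this, hu] at h
  linarith

lemma notsq (c : Ctx M A B) : ¬ IsSquare A := by
  rintro ⟨a, ha⟩
  have h := c.hAB
  rw [ha] at h
  push_cast at h
  rw [four] at h
  have h1 : ((a : ℤ) * B) ^ 2 = (2 ^ M) ^ 2 + 1 := by linarith [h, (by ring : ((a : ℤ) * B) ^ 2 = a * a * B ^ 2)]
  have h2 : (0 : ℤ) ≤ a * B := mul_nonneg (by positivity) c.hB.le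
  have h3 : (0 : ℤ) < 2 ^ M := by positivity
  have h4 : (2 : ℤ) ^ M < a * B := by
    by_contra hc
    push Not at hc
    nlinarith
  nlinarith

lemma A_pos (c : Ctx M A B) : 0 < A := by
  rcases Nat.eq_zero_or_pos A with h | h
  · exact absurd ⟨0, by rw [h]⟩ c.notsq
  · exact h

lemma hAB' (c : Ctx M A B) : ((2 : ℤ) ^ M) ^ 2 + 1 = A * B ^ 2 := by
  rw [c.hAB, four]

lemma A_ge (c : Ctx M A B) : 17 ≤ A := by
  have h1 := c.A_mod
  have h2 := c.A_pos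
  have h3 := c.notsq
  by_contra hc
  push Not at hc
  interval_cases A <;> first | omega | (exact h3 ⟨1, rfl⟩) | (exact h3 ⟨3, rfl⟩)

/-- The square of `2 ^ M + B √A` as a solution of the Pell equation. -/
def sig (c : Ctx M A B) : Solution₁ (A : ℤ) :=
  Solution₁.mk ((2 ^ M) ^ 2 + A * B ^ 2) (2 * 2 ^ M * B) (by
    have h := c.hAB'
    have : (((2 : ℤ) ^ M) ^ 2 + A * B ^ 2) ^ 2 - (A : ℤ) * (2 * 2 ^ M * B) ^ 2
      = (A * B ^ 2 - (2 ^ M) ^ 2) ^ 2 := by ring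
    rw [this, ← h]; ring)

lemma sig_x (c : Ctx M A B) : c.sig.x = (2 ^ M) ^ 2 + A * B ^ 2 := Solution₁.x_mk _ _ _

lemma sig_y (c : Ctx M A B) : c.sig.y = 2 * 2 ^ M * B := Solution₁.y_mk _ _ _

lemma isFund (c : Ctx M A B) : IsFundamental c.sig := by
  have hB := c.hB
  have hx : (0 : ℤ) < 2 ^ M := by positivity
  refine ⟨?_, ?_, ?_⟩
  · rw [sig_x, ← c.hAB']
    nlinarith
  · rw [sig_y]; positivity
  · intro b hb
    have hy : b.y ≠ 0 := by
      intro h0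
      have h1 := b.prop
      rw [h0] at h1
      nlinarith
    have h1 := Pool.Agent.helper69.SqFree.two_pow_le c.A_pos c.notsq M B hB c.hAB' b.x b.y b.prop hy
    rw [← c.sig_y] at h1
    have h2 := b.prop
    have h3 := c.sig.prop
    have hy0 : 0 < c.sig.y := by rw [sig_y]; positivity
    have h4 : c.sig.y ^ 2 ≤ b.y ^ 2 := by
      rw [← sq_abs b.y]
      nlinarith
    have hA : (0 : ℤ) < A := by exact_mod_cast c.A_pos
    have h5 : c.sig.x ^ 2 ≤ b.x ^ 2 := by nlinarith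
    have h6 : 0 < c.sig.x := by rw [sig_x]; positivity
    nlinarith

/-- Rigidity of units at the 2-adic places. -/
theorem unit_rigid (c : Ctx M A B) {k : ℕ} (hk : k ≤ M) (r : ℤ) (hr : (2 ^ k : ℤ) ∣ r * B - 1)
    (a t : ℤ) (h : a ^ 2 - A * t ^ 2 = 1 ∨ a ^ 2 - A * t ^ 2 = -1) :
    (2 ^ k : ℤ) ∣ a + t * r - 1 ∨ (2 ^ k : ℤ) ∣ a + t * r + 1 := by
  have hcast : ∀ z : ℤ, ((z : ZMod (2 ^ k)) = 0 ↔ (2 ^ k : ℤ) ∣ z) := by
    intro z
    rw [ZMod.intCast_zmod_eq_zero_iff_dvd]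
    push_cast
    rfl
  have hrB : (r : ZMod (2 ^ k)) * (B : ZMod (2 ^ k)) = 1 := by
    have := (hcast (r * B - 1)).mpr hr
    push_cast at this
    exact sub_eq_zero.mp this
  have hx0 : (2 : ZMod (2 ^ k)) ^ M = 0 := by
    have := (hcast (2 ^ M)).mpr (pow_dvd_pow 2 hk)
    push_cast at this
    exact this
  have hABz : (A : ZMod (2 ^ k)) * (B : ZMod (2 ^ k)) ^ 2 = 1 := by
    have h1 := c.hAB'
    have h2 : ((((2 : ℤ) ^ M) ^ 2 + 1 : ℤ) : ZMod (2 ^ k)) = ((A * B ^ 2 : ℤ) : ZMod (2 ^ k)) := by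
      rw [h1]
    push_cast at h2
    rw [← h2, hx0]; ring
  have hrr : (r : ZMod (2 ^ k)) * (r : ZMod (2 ^ k)) = (((A : ℤ)) : ZMod (2 ^ k)) := by
    push_cast
    calc (r : ZMod (2 ^ k)) * r = (A * B ^ 2) * (r * r) := by rw [hABz, one_mul]
      _ = A * ((r * B) ^ 2) := by ring
      _ = A := by rw [hrB]; ring
  set φ : ℤ√(A : ℤ) →+* ZMod (2 ^ k) := Zsqrtd.lift ⟨(r : ZMod (2 ^ k)), hrr⟩ with hφ
  have hφv : ∀ z : ℤ√(A : ℤ), φ z = z.re + z.im * r := fun z => rfl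
  -- norm one
  have key : ∀ s : Solution₁ (A : ℤ), φ (s : ℤ√(A : ℤ)) = 1 ∨ φ (s : ℤ√(A : ℤ)) = -1 := by
    intro s
    let f : Solution₁ (A : ℤ) →* ZMod (2 ^ k) :=
      { toFun := fun s => φ (s : ℤ√(A : ℤ))
        map_one' := by
          have : ((1 : Solution₁ (A : ℤ)) : ℤ√(A : ℤ)) = 1 := rfl
          rw [this, map_one]
        map_mul' := fun s t => by
          have : ((s * t : Solution₁ (A : ℤ)) : ℤ√(A : ℤ)) = s * t := rfl
          rw [this, map_mul] }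
    have hf : ∀ s, f s = φ (s : ℤ√(A : ℤ)) := fun s => rfl
    have hsig : f c.sig = 1 := by
      rw [hf, hφv]
      have e1 : (c.sig : ℤ√(A : ℤ)).re = (2 ^ M) ^ 2 + A * B ^ 2 := c.sig_x
      have e2 : (c.sig : ℤ√(A : ℤ)).im = 2 * 2 ^ M * B := c.sig_y
      rw [e1, e2]
      push_cast
      rw [hx0, hABz]; ring
    have hpow : ∀ n : ℤ, f (c.sig ^ n) = 1 := by
      intro n
      have h1 : f.toHomUnits c.sig = 1 := by
        ext
        rw [MonoidHom.coe_toHomUnits, hsig]; rfl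
      have h2 : f.toHomUnits (c.sig ^ n) = 1 := by
        rw [map_zpow, h1, one_zpow]
      have h3 := congrArg Units.val h2
      rwa [MonoidHom.coe_toHomUnits, Units.val_one] at h3
    obtain ⟨n, hn | hn⟩ := c.isFund.eq_zpow_or_neg_zpow s
    · left
      rw [← hf, hn, hpow]
    · right
      have e3 : ((s : Solution₁ (A : ℤ)) : ℤ√(A : ℤ)) = -((c.sig ^ n : Solution₁ (A : ℤ)) : ℤ√(A : ℤ)) := by
        rw [hn]; rfl
      rw [e3, map_neg, ← hf, hpow]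
  have hconv : ∀ z : ℤ, (z : ZMod (2 ^ k)) = 1 → (2 ^ k : ℤ) ∣ z - 1 := by
    intro z hz
    rw [← hcast]; push_cast; rw [hz]; ring
  have hconv' : ∀ z : ℤ, (z : ZMod (2 ^ k)) = -1 → (2 ^ k : ℤ) ∣ z + 1 := by
    intro z hz
    rw [← hcast]; push_cast; rw [hz]; ring
  rcases h with h | h
  · have h1 := key (Solution₁.mk a t h)
    have e1 : φ ((Solution₁.mk a t h : Solution₁ (A : ℤ)) : ℤ√(A : ℤ)) = ((a + t * r : ℤ) : ZMod (2 ^ k)) := by
      rw [hφv]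
      have e2 : ((Solution₁.mk a t h : Solution₁ (A : ℤ)) : ℤ√(A : ℤ)).re = a := Solution₁.x_mk _ _ _
      have e3 : ((Solution₁.mk a t h : Solution₁ (A : ℤ)) : ℤ√(A : ℤ)).im = t := Solution₁.y_mk _ _ _
      rw [e2, e3]; push_cast; ring
    rw [e1] at h1
    rcases h1 with h1 | h1
    · left; exact hconv _ h1
    · right; exact hconv' _ h1
  · have hprod : (a * 2 ^ M + A * B * t) ^ 2 - (A : ℤ) * (a * B + t * 2 ^ M) ^ 2 = 1 := by
      have e : (a * 2 ^ M + A * B * t) ^ 2 - (A : ℤ) * (a * B + t * 2 ^ M) ^ 2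
        = (a ^ 2 - A * t ^ 2) * ((2 ^ M) ^ 2 - A * B ^ 2) := by ring
      rw [e, h, ← c.hAB']; ring
    have h1 := key (Solution₁.mk _ _ hprod)
    have e1 : φ ((Solution₁.mk _ _ hprod : Solution₁ (A : ℤ)) : ℤ√(A : ℤ)) = ((a + t * r : ℤ) : ZMod (2 ^ k)) := by
      rw [hφv]
      have e2 : ((Solution₁.mk _ _ hprod : Solution₁ (A : ℤ)) : ℤ√(A : ℤ)).re = a * 2 ^ M + A * B * t :=
        Solution₁.x_mk _ _ _
      have e3 : ((Solution₁.mk _ _ hprod : Solution₁ (A : ℤ)) : ℤ√(A : ℤ)).im = a * B + t * 2 ^ M :=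
        Solution₁.y_mk _ _ _
      rw [e2, e3]
      push_cast
      rw [hx0]
      have e4 : (A : ZMod (2 ^ k)) * B = r := by
        calc (A : ZMod (2 ^ k)) * B = (A * B ^ 2) * r * (1 - 0) := by
              calc (A : ZMod (2 ^ k)) * B = A * B * (r * B) := by rw [hrB, mul_one]
                _ = _ := by ring
          _ = r := by rw [hABz]; ring
      calc (a : ZMod (2 ^ k)) * 0 + A * B * t + (a * B + t * 0) * r
          = (A * B) * t + a * (r * B) := by ring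
        _ = a + t * r := by rw [e4, hrB]; ring
    rw [e1] at h1
    rcases h1 with h1 | h1
    · left; exact hconv _ h1
    · right; exact hconv' _ h1

end Ctx

end Pool.Agent.helper38.SqFree2
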