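import Mathlib
import Pool.Agent.helper38.SqFree2.Basic

namespace Pool.Agent.helper38.SqFree2

/-- `(U + V √A) / 2` generates the `d`-th power of the prime above `2` at which `UB - V`
is highly divisible. -/
def Q (A : ℕ) (B : ℤ) (d : ℕ) (U V : ℤ) : Prop :=
  (U ^ 2 - A * V ^ 2 = 2 ^ (d + 2) ∨ U ^ 2 - A * V ^ 2 = -2 ^ (d + 2)) ∧
    (2 ^ (d + 1) : ℤ) ∣ U * B - V

namespace Ctx

variable {M A : ℕ} {B : ℤ}

lemma parity (c : Ctx M A B) {U V : ℤ} (h : (2 : ℤ) ∣ U * B - V) :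
    (Odd U ∧ Odd V ∧ (8 : ℤ) ∣ U ^ 2 - A * V ^ 2) ∨ (Even U ∧ Even V) := by
  have hB := c.B_odd
  obtain ⟨a, ha⟩ := c.A_mod
  have h2 : Even (U * B - V) := even_iff_two_dvd.mpr h
  rcases Int.even_or_odd U with hU | hU
  · right
    refine ⟨hU, ?_⟩
    have h3 : Even (U * B) := hU.mul_right B
    exact (Int.even_sub.mp h2).mp h3
  · left
    have hUB : Odd (U * B) := hU.mul hB
    have hV : Odd V := by
      by_contra hc
      rw [Int.not_odd_iff_even] at hc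
      have := (Int.even_sub.mp h2).mpr hc
      exact (Int.not_even_iff_odd.mpr hUB) this
    refine ⟨hU, hV, ?_⟩
    obtain ⟨u, rfl⟩ := hU
    obtain ⟨v, rfl⟩ := hV
    obtain ⟨u2, hu2⟩ := Int.even_mul_succ_self u
    obtain ⟨v2, hv2⟩ := Int.even_mul_succ_self v
    have e1 : (2 * u + 1) ^ 2 = 8 * u2 + 1 := by linear_combination 4 * hu2
    have e2 : (2 * v + 1) ^ 2 = 8 * v2 + 1 := by linear_combination 4 * hv2
    have e3 : (A : ℤ) = 8 * a + 1 := by linarith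
    rw [e1, e2, e3]
    exact ⟨u2 - v2 * (8 * a + 1) - a, by ring⟩

lemma exists_inv (c : Ctx M A B) (n : ℕ) : ∃ r : ℤ, (2 ^ n : ℤ) ∣ r * B - 1 := by
  have h : IsCoprime (2 ^ n : ℤ) B := by
    apply IsCoprime.pow_left
    obtain ⟨j, hj⟩ := c.B_odd
    exact ⟨-j, 1, by rw [hj]; ring⟩
  obtain ⟨u, v, h⟩ := h
  exact ⟨v, ⟨-u, by linear_combination h⟩⟩

lemma exists_hom (c : Ctx M A B) : ∃ (r : ℤ) (φ : ℤ√(A : ℤ) →+* ZMod (2 ^ (2 * M))),
    ((2 : ℤ) ^ (2 * M) ∣ r * B - 1) ∧ ((r : ZMod (2 ^ (2 * M))) * (B : ZMod (2 ^ (2 * M))) = 1) ∧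
      (∀ z : ℤ√(A : ℤ), φ z = z.re + z.im * r) := by
  obtain ⟨r, hr⟩ := c.exists_inv (2 * M)
  have hcast : ∀ z : ℤ, ((z : ZMod (2 ^ (2 * M))) = 0 ↔ (2 ^ (2 * M) : ℤ) ∣ z) := by
    intro z
    rw [ZMod.intCast_zmod_eq_zero_iff_dvd]
    push_cast
    rfl
  have hrB : (r : ZMod (2 ^ (2 * M))) * (B : ZMod (2 ^ (2 * M))) = 1 := by
    have := (hcast (r * B - 1)).mpr hr
    push_cast at this
    exact sub_eq_zero.mp this
  have hx0 : ((2 : ZMod (2 ^ (2 * M))) ^ M) ^ 2 = 0 := by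
    have := (hcast ((2 ^ M) ^ 2)).mpr (by rw [← pow_mul, mul_comm])
    push_cast at this
    exact this
  have hABz : (A : ZMod (2 ^ (2 * M))) * (B : ZMod (2 ^ (2 * M))) ^ 2 = 1 := by
    have h1 := c.hAB'
    have h2 : ((((2 : ℤ) ^ M) ^ 2 + 1 : ℤ) : ZMod (2 ^ (2 * M)))
        = ((A * B ^ 2 : ℤ) : ZMod (2 ^ (2 * M))) := by
      rw [h1]
    push_cast at h2
    rw [← h2, hx0]; ring
  have hrr : (r : ZMod (2 ^ (2 * M))) * (r : ZMod (2 ^ (2 * M)))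
      = (((A : ℤ)) : ZMod (2 ^ (2 * M))) := by
    push_cast
    calc (r : ZMod (2 ^ (2 * M))) * r = (A * B ^ 2) * (r * r) := by rw [hABz, one_mul]
      _ = A * ((r * B) ^ 2) := by ring
      _ = A := by rw [hrB]; ring
  exact ⟨r, Zsqrtd.lift ⟨(r : ZMod (2 ^ (2 * M))), hrr⟩, hr, hrB, fun z => rfl⟩

lemma norm_pow' (z : ℤ√(A : ℤ)) (e : ℕ) : (z ^ e).norm = z.norm ^ e :=
  map_pow Zsqrtd.normMonoidHom z e

lemma descent (c : Ctx M A B) {d : ℕ} (hd : 1 ≤ d) {U V : ℤ} (hQ : Q A B d U V) (e r : ℕ)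
    (her : M - 1 = e * d + r) : ∃ U' V' : ℤ, Q A B r U' V' ∧
      (((2 : ℤ) ^ (e + e * d) : ℤ) : ℤ√(A : ℤ)) * ⟨U', V'⟩
        = ⟨2 ^ M + 1, B⟩ * (star (⟨U, V⟩ : ℤ√(A : ℤ))) ^ e := by
  obtain ⟨r0, φ, h1, h2, hφ⟩ := c.exists_hom
  have hM := c.hM
  have hMr : M = e * d + r + 1 := by omega
  have hee : e ≤ e * d := Nat.le_mul_of_pos_right e (by omega)
  set Γ : ℤ√(A : ℤ) := ⟨U, V⟩ with hΓdef
  set Γ₁ : ℤ√(A : ℤ) := ⟨2 ^ M + 1, B⟩ with hΓ₁def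
  have hsΓ : (2 ^ (d + 1) : ZMod (2 ^ (2 * M))) ∣ φ (star Γ) := by
    obtain ⟨w, hw⟩ := hQ.2
    refine ⟨r0 * w, ?_⟩
    rw [hφ]
    have e1 : (star Γ).re = U := rfl
    have e2 : (star Γ).im = -V := rfl
    rw [e1, e2]
    have h3 : ((U * B - V : ℤ) : ZMod (2 ^ (2 * M))) = ((2 ^ (d + 1) * w : ℤ) : ZMod (2 ^ (2 * M))) := by
      rw [hw]
    push_cast at h3 ⊢
    linear_combination (r0 : ZMod (2 ^ (2 * M))) * h3 - (U : ZMod (2 ^ (2 * M))) * h2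
  have hΓ : (2 : ZMod (2 ^ (2 * M))) ∣ φ Γ := by
    obtain ⟨w, hw⟩ := hQ.2
    refine ⟨r0 * (2 ^ d * w + V), ?_⟩
    rw [hφ]
    have e1 : Γ.re = U := rfl
    have e2 : Γ.im = V := rfl
    rw [e1, e2]
    have h3 : ((U * B - V : ℤ) : ZMod (2 ^ (2 * M))) = ((2 ^ (d + 1) * w : ℤ) : ZMod (2 ^ (2 * M))) := by
      rw [hw]
    push_cast at h3 ⊢
    rw [pow_succ] at h3
    linear_combination (r0 : ZMod (2 ^ (2 * M))) * h3 - (U : ZMod (2 ^ (2 * M))) * h2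
  have e1 : φ Γ₁ = 2 * (2 ^ (M - 1) + 1) := by
    rw [hφ]
    have e1 : Γ₁.re = 2 ^ M + 1 := rfl
    have e2 : Γ₁.im = B := rfl
    rw [e1, e2]
    have e3 : (2 : ZMod (2 ^ (2 * M))) ^ M = 2 * 2 ^ (M - 1) := by
      rw [← pow_succ']; congr 1; omega
    push_cast
    rw [e3]
    linear_combination h2
  have e2 : φ (star Γ₁) = 2 ^ M := by
    rw [hφ]
    have e1 : (star Γ₁).re = 2 ^ M + 1 := rfl
    have e2 : (star Γ₁).im = -B := rfl
    rw [e1, e2]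
    push_cast
    linear_combination -h2
  set z : ℤ√(A : ℤ) := Γ₁ * star Γ ^ e with hz
  have f1 : (2 ^ (1 + e + e * d) : ZMod (2 ^ (2 * M))) ∣ φ z := by
    rw [hz, map_mul, map_pow, e1]
    have h3 : (2 : ZMod (2 ^ (2 * M))) ^ (1 + e + e * d) = 2 * (2 ^ (d + 1)) ^ e := by
      rw [← pow_mul, ← pow_succ']; congr 1; ring
    rw [h3]
    exact mul_dvd_mul (dvd_mul_right _ _) (pow_dvd_pow_of_dvd hsΓ e)
  have f2 : (2 ^ (M + e) : ZMod (2 ^ (2 * M))) ∣ φ (star z) := by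
    rw [hz, star_mul', star_pow, star_star, map_mul, map_pow, e2, pow_add]
    exact mul_dvd_mul_left _ (pow_dvd_pow_of_dvd hΓ e)
  have f2' : (2 ^ (1 + e + e * d) : ZMod (2 ^ (2 * M))) ∣ φ (star z) :=
    (pow_dvd_pow _ (by omega)).trans f2
  have s1 : φ z = z.re + z.im * r0 := hφ z
  have s2 : φ (star z) = z.re - z.im * r0 := by
    rw [hφ]
    have e1 : (star z).re = z.re := rfl
    have e2 : (star z).im = -z.im := rfl
    rw [e1, e2]; push_cast; ring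
  have g1 : (2 : ℤ) ^ (1 + e + e * d) ∣ 2 * z.re := by
    apply two_pow_dvd_of_cast (n := 2 * M) (by omega)
    have : ((2 * z.re : ℤ) : ZMod (2 ^ (2 * M))) = φ z + φ (star z) := by
      rw [s1, s2]; push_cast; ring
    rw [this]
    exact dvd_add f1 f2'
  have g2 : (2 : ℤ) ^ (1 + e + e * d) ∣ 2 * z.im := by
    apply two_pow_dvd_of_cast (n := 2 * M) (by omega)
    have : ((2 * z.im : ℤ) : ZMod (2 ^ (2 * M))) = B * (φ z - φ (star z)) := by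
      rw [s1, s2]; push_cast
      linear_combination (-2 * (z.im : ZMod (2 ^ (2 * M)))) * h2
    rw [this]
    exact Dvd.dvd.mul_left (dvd_sub f1 f2') _
  have g3 : (2 : ℤ) ^ (M + e) ∣ z.re * B - z.im := by
    apply two_pow_dvd_of_cast (n := 2 * M) (by omega)
    have : ((z.re * B - z.im : ℤ) : ZMod (2 ^ (2 * M))) = B * φ (star z) := by
      rw [s2]; push_cast
      linear_combination ((z.im : ZMod (2 ^ (2 * M)))) * h2
    rw [this]
    exact Dvd.dvd.mul_left f2 _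
  have hpow : (2 : ℤ) ^ (1 + e + e * d) = 2 * 2 ^ (e + e * d) := by
    rw [← pow_succ']; congr 1; ring
  rw [hpow] at g1 g2
  have g1' := (mul_dvd_mul_iff_left (two_ne_zero (α := ℤ))).mp g1
  have g2' := (mul_dvd_mul_iff_left (two_ne_zero (α := ℤ))).mp g2
  obtain ⟨U', hU'⟩ := g1'
  obtain ⟨V', hV'⟩ := g2'
  have hpos : (2 : ℤ) ^ (e + e * d) ≠ 0 := by positivity
  refine ⟨U', V', ⟨?_, ?_⟩, ?_⟩
  · have hn : z.norm = 2 ^ (M + 1) * (U ^ 2 - A * V ^ 2) ^ e := by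
      rw [hz, Zsqrtd.norm_mul, norm_pow', Zsqrtd.norm_conj]
      congr 1
      · rw [Zsqrtd.norm_def]
        have h3 := c.hAB'
        show ((2 : ℤ) ^ M + 1) * (2 ^ M + 1) - A * B * B = 2 ^ (M + 1)
        rw [pow_succ]
        linear_combination h3
      · rw [Zsqrtd.norm_def]
        show (U * U - A * V * V) ^ e = _
        congr 1; ring
    have hn2 : z.norm = 2 ^ (2 * (e + e * d)) * (U' ^ 2 - A * V' ^ 2) := by
      rw [Zsqrtd.norm_def, hU', hV', mul_comm 2, pow_mul]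
      ring
    have hpp : (2 : ℤ) ^ (M + 1) * (2 ^ (d + 2)) ^ e = 2 ^ (2 * (e + e * d)) * 2 ^ (r + 2) := by
      rw [← pow_mul, ← pow_add, ← pow_add]; congr 1
      rw [hMr]; ring
    have hpos2 : (2 : ℤ) ^ (2 * (e + e * d)) ≠ 0 := by positivity
    rcases hQ.1 with h | h
    · left
      apply mul_left_cancel₀ hpos2
      rw [← hn2, hn, h, hpp]
    · rcases Nat.even_or_odd e with he | he
      · left
        apply mul_left_cancel₀ hpos2
        rw [← hn2, hn, h, he.neg_pow, hpp]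
      · right
        apply mul_left_cancel₀ hpos2
        rw [← hn2, hn, h, he.neg_pow, mul_neg, hpp, mul_neg]
  · have h3 : (2 : ℤ) ^ (M + e) = 2 ^ (e + e * d) * 2 ^ (r + 1) := by
      rw [← pow_add]; congr 1; omega
    rw [hU', hV', h3] at g3
    have h4 : 2 ^ (e + e * d) * U' * B - 2 ^ (e + e * d) * V' = 2 ^ (e + e * d) * (U' * B - V') := by
      ring
    rw [h4] at g3
    exact (mul_dvd_mul_iff_left hpos).mp g3
  · apply Zsqrtd.ext
    · rw [hU', Zsqrtd.re_mul, Zsqrtd.re_intCast, Zsqrtd.im_intCast]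
      ring
    · rw [hV', Zsqrtd.im_mul, Zsqrtd.re_intCast, Zsqrtd.im_intCast]
      ring

end Ctx

end Pool.Agent.helper38.SqFree2
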