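import Mathlib
import Pool.Agent.helper38.SqFree2.Order

namespace Pool.Agent.helper38.SqFree2

namespace Ctx

variable {M A : ℕ} {B : ℤ}

lemma coprime_two_pow (c : Ctx M A B) (n : ℕ) : IsCoprime (2 ^ n : ℤ) B := by
  apply IsCoprime.pow_left
  obtain ⟨j, hj⟩ := c.B_odd
  exact ⟨-j, 1, by rw [hj]; ring⟩

lemma unit_of_zero (c : Ctx M A B) {U' V' : ℤ} (h : Q A B 0 U' V') :
    ∃ a b : ℤ, U' = 2 * a ∧ V' = 2 * b ∧ (a ^ 2 - A * b ^ 2 = 1 ∨ a ^ 2 - A * b ^ 2 = -1) := by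
  have h1 := c.parity (U := U') (V := V') (by simpa using h.2)
  rcases h1 with ⟨_, _, h2⟩ | ⟨hU, hV⟩
  · exfalso
    rcases h.1 with h3 | h3 <;> rw [h3] at h2 <;> norm_num at h2
  · obtain ⟨a, ha⟩ := hU
    obtain ⟨b, hb⟩ := hV
    refine ⟨a, b, by omega, by omega, ?_⟩
    have e : U' ^ 2 - A * V' ^ 2 = 4 * (a ^ 2 - A * b ^ 2) := by rw [ha, hb]; ring
    rcases h.1 with h3 | h3
    · left
      rw [e] at h3; norm_num at h3; linarith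
    · right
      rw [e] at h3; norm_num at h3; linarith

lemma residue (c : Ctx M A B) {d e : ℕ} (hd : 1 ≤ d) (he : Odd e) (hed : M - 1 = e * d) {U V : ℤ}
    (hV : Odd V) (s : ℤ) (hs : s = 1 ∨ s = -1)
    (hN : U ^ 2 - A * V ^ 2 = s * 2 ^ (d + 2)) (hdiv : (2 : ℤ) ^ (d + 1) ∣ U * B - V) :
    ∃ τ : ℤ, (τ = 1 ∨ τ = -1) ∧ (2 : ℤ) ^ (M - 1) ∣ U - τ * (1 + s * 2 ^ d) := by
  have hM := c.hM
  have hQ : Q A B d U V := by
    refine ⟨?_, hdiv⟩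
    rcases hs with hs | hs
    · left; rw [hN, hs, one_mul]
    · right; rw [hN, hs]; ring
  obtain ⟨U', V', hQ', hrel⟩ := c.descent hd hQ e 0 (by omega)
  obtain ⟨a, b, rfl, rfl, hab⟩ := c.unit_of_zero hQ'
  obtain ⟨r0, φ, h1, h2, hφ⟩ := c.exists_hom
  have he1 : 1 ≤ e := he.pos
  have hee : e ≤ e * d := Nat.le_mul_of_pos_right e (by omega)
  set Γ : ℤ√(A : ℤ) := ⟨U, V⟩ with hΓdef
  set Γ₁ : ℤ√(A : ℤ) := ⟨2 ^ M + 1, B⟩ with hΓ₁def
  have hnorm : Γ.norm = s * 2 ^ (d + 2) := by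
    rw [Zsqrtd.norm_def, ← hN]
    show U * U - A * V * V = _
    ring
  -- the basic relation
  have rel : (⟨a, b⟩ : ℤ√(A : ℤ)) * Γ ^ e = ((s ^ e * 2 ^ (e - 1) : ℤ) : ℤ√(A : ℤ)) * Γ₁ := by
    have hpos : ((2 : ℤ) ^ (e + e * d + 1)) ≠ 0 := by positivity
    apply Zsqrtd.eq_of_smul_eq_smul_left hpos
    have hη : (⟨2 * a, 2 * b⟩ : ℤ√(A : ℤ)) = ((2 : ℤ) : ℤ√(A : ℤ)) * ⟨a, b⟩ := by
      apply Zsqrtd.ext
      · rw [Zsqrtd.re_smul]
      · rw [Zsqrtd.im_smul]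
    have h3 : (star Γ) ^ e * Γ ^ e = (((s * 2 ^ (d + 2)) : ℤ) : ℤ√(A : ℤ)) ^ e := by
      rw [← mul_pow, mul_comm, ← Zsqrtd.norm_eq_mul_conj, hnorm]
    have h4 : (s * 2 ^ (d + 2)) ^ e = (2 : ℤ) ^ (e + e * d + 1) * (s ^ e * 2 ^ (e - 1)) := by
      rw [mul_pow, ← pow_mul]
      have : (d + 2) * e = (e + e * d + 1) + (e - 1) := by
        have : (d + 2) * e = e * d + 2 * e := by ring
        omega
      rw [this, pow_add]; ring
    calc (((2 : ℤ) ^ (e + e * d + 1) : ℤ) : ℤ√(A : ℤ)) * ((⟨a, b⟩ : ℤ√(A : ℤ)) * Γ ^ e)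
        = ((((2 : ℤ) ^ (e + e * d) : ℤ) : ℤ√(A : ℤ)) * (((2 : ℤ) : ℤ√(A : ℤ)) * ⟨a, b⟩)) * Γ ^ e := by
          push_cast; ring
      _ = (Γ₁ * (star Γ) ^ e) * Γ ^ e := by rw [← hη, hrel]
      _ = Γ₁ * ((star Γ) ^ e * Γ ^ e) := by ring
      _ = Γ₁ * ((((s * 2 ^ (d + 2)) ^ e : ℤ)) : ℤ√(A : ℤ)) := by rw [h3]; push_cast; ring
      _ = _ := by rw [h4]; push_cast; ring
  obtain ⟨w, hw⟩ := hdiv
  set g : ℤ := V + 2 ^ d * w with hg
  have hgodd : Odd g := by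
    rw [hg]
    apply hV.add_even
    apply Even.mul_right
    exact (even_two.pow_of_ne_zero (by omega))
  have hUB : U * B + V = 2 * g := by
    rw [hg]; rw [pow_succ] at hw; linarith
  have relφ : (((2 ^ e * (B ^ e * s ^ e * (2 ^ (M - 1) + 1) - (a + b * r0) * g ^ e)) : ℤ) :
      ZMod (2 ^ (2 * M))) = 0 := by
    have h3 := congrArg φ rel
    rw [map_mul, map_mul, map_pow] at h3
    have e1 : φ Γ = r0 * (2 * g) := by
      rw [hφ]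
      have e1 : Γ.re = U := rfl
      have e2 : Γ.im = V := rfl
      rw [e1, e2]
      have h4 : ((U * B + V : ℤ) : ZMod (2 ^ (2 * M))) = ((2 * g : ℤ) : ZMod (2 ^ (2 * M))) := by
        rw [hUB]
      push_cast at h4
      rw [← h4]
      linear_combination (-(U : ZMod (2 ^ (2 * M)))) * h2
    have e2 : φ Γ₁ = 2 * (2 ^ (M - 1) + 1) := by
      rw [hφ]
      have e1 : Γ₁.re = 2 ^ M + 1 := rfl
      have e2 : Γ₁.im = B := rfl
      rw [e1, e2]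
      have e3 : (2 : ZMod (2 ^ (2 * M))) ^ M = 2 * 2 ^ (M - 1) := by
        rw [← pow_succ']; congr 1; omega
      push_cast
      rw [e3]
      linear_combination h2
    have e3 : φ (⟨a, b⟩ : ℤ√(A : ℤ)) = a + b * r0 := hφ _
    have e4 : φ (((s ^ e * 2 ^ (e - 1) : ℤ)) : ℤ√(A : ℤ)) = s ^ e * 2 ^ (e - 1) := by
      rw [map_intCast]; push_cast; rfl
    rw [e1, e2, e3, e4] at h3
    have e5 : (2 : ZMod (2 ^ (2 * M))) ^ e = 2 ^ (e - 1) * 2 := by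
      rw [← pow_succ]; congr 1; omega
    have e6 : ((r0 : ZMod (2 ^ (2 * M))) ^ e) * ((B : ZMod (2 ^ (2 * M))) ^ e) = 1 := by
      rw [← mul_pow, h2, one_pow]
    push_cast
    rw [mul_pow, mul_pow] at h3
    calc (2 : ZMod (2 ^ (2 * M))) ^ e * (B ^ e * s ^ e * (2 ^ (M - 1) + 1) - (a + b * r0) * g ^ e)
        = B ^ e * (s ^ e * 2 ^ (e - 1) * (2 * (2 ^ (M - 1) + 1))) - (a + b * r0) * (2 ^ e * g ^ e) := by
          rw [e5]; ring
      _ = B ^ e * ((a + b * r0) * (r0 ^ e * (2 ^ e * g ^ e))) - (a + b * r0) * (2 ^ e * g ^ e) := by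
          rw [h3]
      _ = (r0 ^ e * B ^ e) * ((a + b * r0) * (2 ^ e * g ^ e)) - (a + b * r0) * (2 ^ e * g ^ e) := by
          ring
      _ = 0 := by rw [e6]; ring
  have hX : (2 : ℤ) ^ (M - 1) ∣ B ^ e * s ^ e * (2 ^ (M - 1) + 1) - (a + b * r0) * g ^ e := by
    rw [ZMod.intCast_zmod_eq_zero_iff_dvd] at relφ
    push_cast at relφ
    have h3 : (2 : ℤ) ^ (2 * M) = 2 ^ e * 2 ^ (2 * M - e) := by
      rw [← pow_add]; congr 1; omega
    rw [h3] at relφ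
    have h4 := (mul_dvd_mul_iff_left (by positivity : (2 : ℤ) ^ e ≠ 0)).mp relφ
    exact (pow_dvd_pow 2 (by omega)).trans h4
  have hr0 : (2 : ℤ) ^ (M - 1) ∣ r0 * B - 1 := (pow_dvd_pow 2 (by omega)).trans h1
  obtain ⟨τ0, hτ0, hτdvd⟩ : ∃ τ0 : ℤ, (τ0 = 1 ∨ τ0 = -1) ∧ (2 : ℤ) ^ (M - 1) ∣ a + b * r0 - τ0 := by
    rcases c.unit_rigid (k := M - 1) (by omega) r0 hr0 a b hab with h | h
    · exact ⟨1, Or.inl rfl, h⟩
    · exact ⟨-1, Or.inr rfl, by simpa using h⟩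
  have hτe : τ0 ^ e = τ0 := by
    rcases hτ0 with h | h
    · rw [h, one_pow]
    · rw [h, he.neg_one_pow]
  have hτ2 : τ0 * τ0 = 1 := by rcases hτ0 with h | h <;> rw [h] <;> norm_num
  have hs2 : s * s = 1 := by rcases hs with h | h <;> rw [h] <;> norm_num
  have hτodd : Odd τ0 := by rcases hτ0 with h | h <;> rw [h] <;> decide
  have hsodd : Odd s := by rcases hs with h | h <;> rw [h] <;> decide
  have h5 : (2 : ℤ) ^ (M - 1) ∣ (s * B) ^ e - (τ0 * g) ^ e := by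
    have h6 : (s * B) ^ e - (τ0 * g) ^ e
      = (B ^ e * s ^ e * (2 ^ (M - 1) + 1) - (a + b * r0) * g ^ e)
        - 2 ^ (M - 1) * (B ^ e * s ^ e) + (a + b * r0 - τ0) * g ^ e := by
      rw [mul_pow, mul_pow, hτe]; ring
    rw [h6]
    exact dvd_add (dvd_sub hX (dvd_mul_right _ _)) (Dvd.dvd.mul_right hτdvd _)
  have h7 : (2 : ℤ) ^ (M - 1) ∣ s * B - τ0 * g :=
    odd_pow_inj (M - 1) _ _ (hsodd.mul c.B_odd) (hτodd.mul hgodd) e he h5
  -- the second factor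
  have hV' : V = g - 2 ^ d * w := by rw [hg]; ring
  have hUB' : U * B = g + 2 ^ d * w := by linarith
  have hprod : g * (2 ^ d * w) = V ^ 2 * (2 ^ (M - 1)) ^ 2 + s * 2 ^ d * B ^ 2 := by
    have h8 : (2 : ℤ) ^ M = 2 * 2 ^ (M - 1) := by rw [← pow_succ']; congr 1; omega
    have h9 := c.hAB'
    rw [h8] at h9
    have h10 : (U * B) ^ 2 - V ^ 2 = 4 * (g * (2 ^ d * w)) := by rw [hUB', hV']; ring
    have h11 : (2 : ℤ) ^ (d + 2) = 4 * 2 ^ d := by rw [pow_add]; ring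
    rw [h11] at hN
    have h12 : 4 * (g * (2 ^ d * w)) = 4 * (V ^ 2 * (2 ^ (M - 1)) ^ 2 + s * 2 ^ d * B ^ 2) := by
      rw [← h10]
      linear_combination B ^ 2 * hN - V ^ 2 * h9
    linarith
  refine ⟨τ0 * s, ?_, ?_⟩
  · rcases hτ0 with h | h <;> rcases hs with h' | h' <;> rw [h, h'] <;> norm_num
  · have h13 : (2 : ℤ) ^ (M - 1) ∣ B * (U - τ0 * s * (1 + s * 2 ^ d)) := by
      obtain ⟨t, ht⟩ := h7
      -- g = τ0 s B - 2^(M-1) τ0 t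
      have hgt : g = τ0 * s * B - 2 ^ (M - 1) * (τ0 * t) := by
        linear_combination (-τ0) * ht - g * hτ2
      -- 2^(M-1) | B (τ0 s (2^d w) - s 2^d B)
      have h14 : (2 : ℤ) ^ (M - 1) ∣ B * (τ0 * s * (2 ^ d * w) - s * 2 ^ d * B) := by
        refine ⟨V ^ 2 * 2 ^ (M - 1) + (τ0 * t) * (2 ^ d * w), ?_⟩
        have h15 : g * (2 ^ d * w) = (τ0 * s * B - 2 ^ (M - 1) * (τ0 * t)) * (2 ^ d * w) := by
          rw [← hgt]
        linear_combination hprod - h15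
      have h16 : (2 : ℤ) ^ (M - 1) ∣ τ0 * s * (2 ^ d * w) - s * 2 ^ d * B :=
        (c.coprime_two_pow (M - 1)).dvd_of_dvd_mul_left h14
      obtain ⟨t2, ht2⟩ := h16
      refine ⟨- (τ0 * t) + τ0 * s * t2, ?_⟩
      have h17 : (2 ^ d * w) = τ0 * (s * s) * 2 ^ d * B + 2 ^ (M - 1) * (τ0 * s * t2) := by
        linear_combination (τ0 * s) * ht2 - (2 ^ d * w) * (s * s) * hτ2 - (2 ^ d * w) * hs2
      linear_combination hUB' + hgt + h17
    exact (c.coprime_two_pow (M - 1)).dvd_of_dvd_mul_left h13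

end Ctx

end Pool.Agent.helper38.SqFree2
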