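import Mathlib
import Pool.Agent.helper38.SqFree2.Order2

namespace Pool.Agent.helper38.SqFree2

namespace Ctx

variable {M A : ℕ} {B : ℤ}

lemma Q_plus (c : Ctx M A B) {d : ℕ} (hd : d + 1 ≤ 2 * M) {U V : ℤ} (h : Q A B d U V) :
    Q A B d (U * 2 ^ M + A * B * V) (V * 2 ^ M + U * B) := by
  obtain ⟨h1, w, hw⟩ := h
  have h9 := c.hAB'
  have e : (U * 2 ^ M + A * B * V) ^ 2 - A * (V * 2 ^ M + U * B) ^ 2 = -(U ^ 2 - A * V ^ 2) := by
    linear_combination (U ^ 2 - A * V ^ 2) * h9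
  refine ⟨?_, ?_⟩
  · rw [e]
    rcases h1 with h1 | h1
    · right; rw [h1]
    · left; rw [h1]; ring
  · have h2 : (2 : ℤ) ^ (d + 1) ∣ (2 ^ M) ^ 2 := by
      rw [← pow_mul]; exact pow_dvd_pow 2 (by omega)
    obtain ⟨t, ht⟩ := h2
    refine ⟨(2 ^ M - 1) * w + t * V, ?_⟩
    linear_combination (2 ^ M - 1) * hw + V * ht - V * h9

lemma Q_minus (c : Ctx M A B) {d : ℕ} (hd : d + 1 ≤ 2 * M) {U V : ℤ} (h : Q A B d U V) :
    Q A B d (U * 2 ^ M - A * B * V) (V * 2 ^ M - U * B) := by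
  obtain ⟨h1, w, hw⟩ := h
  have h9 := c.hAB'
  have e : (U * 2 ^ M - A * B * V) ^ 2 - A * (V * 2 ^ M - U * B) ^ 2 = -(U ^ 2 - A * V ^ 2) := by
    linear_combination (U ^ 2 - A * V ^ 2) * h9
  refine ⟨?_, ?_⟩
  · rw [e]
    rcases h1 with h1 | h1
    · right; rw [h1]
    · left; rw [h1]; ring
  · have h2 : (2 : ℤ) ^ (d + 1) ∣ (2 ^ M) ^ 2 := by
      rw [← pow_mul]; exact pow_dvd_pow 2 (by omega)
    obtain ⟨t, ht⟩ := h2
    refine ⟨(2 ^ M + 1) * w - t * V, ?_⟩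
    linear_combination (2 ^ M + 1) * hw - V * ht + V * h9

/-- For `|V|` minimal, `V` is small. -/
lemma small_V (c : Ctx M A B) {d : ℕ} {U V : ℤ} (h : Q A B d U V)
    (h1 : |V| ≤ |V * 2 ^ M + U * B|) (h2 : |V| ≤ |V * 2 ^ M - U * B|) :
    V ^ 2 * (2 ^ M - 1) ≤ 2 ^ (d + 2) * B ^ 2 := by
  have hB := c.hB
  have h9 := c.hAB'
  have hx : (0 : ℤ) < 2 ^ M := by positivity
  have key : |V| ≤ |(|V| * 2 ^ M - |U| * B)| := by
    rcases le_total 0 V with hv | hv <;> rcases le_total 0 U with hu | hu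
    · rw [abs_of_nonneg hv, abs_of_nonneg hu]
      rwa [abs_of_nonneg hv] at h2
    · rw [abs_of_nonneg hv, abs_of_nonpos hu]
      rw [abs_of_nonneg hv] at h1
      have : V * 2 ^ M - -U * B = V * 2 ^ M + U * B := by ring
      rwa [this]
    · rw [abs_of_nonpos hv, abs_of_nonneg hu]
      rw [abs_of_nonpos hv] at h1
      have : -V * 2 ^ M - U * B = -(V * 2 ^ M + U * B) := by ring
      rwa [this, abs_neg]
    · rw [abs_of_nonpos hv, abs_of_nonpos hu]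
      rw [abs_of_nonpos hv] at h2
      have : -V * 2 ^ M - -U * B = -(V * 2 ^ M - U * B) := by ring
      rwa [this, abs_neg]
  have hq : 0 ≤ |U| * B := mul_nonneg (abs_nonneg _) hB.le
  have hp : 0 ≤ |V| * 2 ^ M := mul_nonneg (abs_nonneg _) hx.le
  have hprod : |(|V| * 2 ^ M - |U| * B)| * (|V| * 2 ^ M + |U| * B) ≤ V ^ 2 + 2 ^ (d + 2) * B ^ 2 := by
    rw [← abs_of_nonneg (add_nonneg hp hq), ← abs_mul]
    have e1 : (|V| * 2 ^ M - |U| * B) * (|V| * 2 ^ M + |U| * B) = V ^ 2 * (2 ^ M) ^ 2 - U ^ 2 * B ^ 2 := by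
      have ev : |V| ^ 2 = V ^ 2 := sq_abs V
      have eu : |U| ^ 2 = U ^ 2 := sq_abs U
      linear_combination (2 ^ M) ^ 2 * ev - B ^ 2 * eu
    rw [e1]
    have e2 : V ^ 2 * (2 ^ M) ^ 2 - U ^ 2 * B ^ 2 = -(V ^ 2 + (U ^ 2 - A * V ^ 2) * B ^ 2) := by
      linear_combination V ^ 2 * h9
    rw [e2, abs_neg]
    have hB2 : 0 ≤ B ^ 2 := sq_nonneg B
    have hV2 : 0 ≤ V ^ 2 := sq_nonneg V
    have hD : (0 : ℤ) < 2 ^ (d + 2) := by positivity
    rw [abs_le]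
    rcases h.1 with h3 | h3 <;> rw [h3] <;> constructor <;> nlinarith
  have h3 : |V| * (|V| * 2 ^ M) ≤ V ^ 2 + 2 ^ (d + 2) * B ^ 2 := by
    calc |V| * (|V| * 2 ^ M) ≤ |V| * (|V| * 2 ^ M + |U| * B) :=
          mul_le_mul_of_nonneg_left (by linarith) (abs_nonneg _)
      _ ≤ |(|V| * 2 ^ M - |U| * B)| * (|V| * 2 ^ M + |U| * B) :=
          mul_le_mul_of_nonneg_right key (by linarith)
      _ ≤ _ := hprod
  have e3 : |V| * (|V| * 2 ^ M) = V ^ 2 * 2 ^ M := by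
    have ev : |V| ^ 2 = V ^ 2 := sq_abs V
    linear_combination 2 ^ M * ev
  rw [e3] at h3
  linarith

/-- The numerical estimate. -/
lemma numeric (x D U : ℤ) (hD : 1 ≤ D) (hx : 256 ≤ x) (h1 : 2 * D ^ 3 ≤ x)
    (h2 : (x - 1) * U ^ 2 ≤ 4 * D * (x * (x + 1))) : 2 * |U| + 2 + 2 * D < x := by
  -- D ≤ x / 50
  have hD50 : 50 * D ≤ x := by
    by_contra hc
    push Not at hc
    -- D > x / 50 ≥ 5.12, so D ≥ 6; 2 D ^ 2 ≥ 72
    have h3 : 6 ≤ D := by omega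
    have h4 : 36 ≤ D ^ 2 := by nlinarith
    have h5 : 2 * D ^ 3 = 2 * D ^ 2 * D := by ring
    rw [h5] at h1
    nlinarith
  by_contra hc
  push Not at hc
  have h3 : x - 2 - 2 * D ≤ 2 * |U| := by linarith
  have h4 : 0 ≤ x - 2 - 2 * D := by linarith
  have h5 : (x - 2 - 2 * D) ^ 2 ≤ 4 * U ^ 2 := by
    have : (2 * |U|) ^ 2 = 4 * U ^ 2 := by rw [mul_pow, sq_abs]; norm_num
    rw [← this]
    exact pow_le_pow_left₀ h4 h3 2
  have h6 : 19 * x ≤ 20 * (x - 2 - 2 * D) := by linarith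
  have h7 : 361 * x ^ 2 ≤ 400 * (x - 2 - 2 * D) ^ 2 := by
    have : (19 * x) ^ 2 ≤ (20 * (x - 2 - 2 * D)) ^ 2 := pow_le_pow_left₀ (by linarith) h6 2
    linarith [this, (by ring : (19 * x) ^ 2 = 361 * x ^ 2), (by ring : (20 * (x - 2 - 2 * D)) ^ 2 = 400 * (x - 2 - 2 * D) ^ 2)]
  have h8 : 361 * x ^ 2 ≤ 1600 * U ^ 2 := by linarith
  have h9 : (x - 1) * (361 * x ^ 2) ≤ (x - 1) * (1600 * U ^ 2) :=
    mul_le_mul_of_nonneg_left h8 (by linarith)
  have h10 : (x - 1) * (1600 * U ^ 2) ≤ 1600 * (4 * D * (x * (x + 1))) := by linarith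
  have h11 : 1600 * (4 * D * (x * (x + 1))) ≤ 128 * x * (x * (x + 1)) := by
    have : 0 ≤ x * (x + 1) := by nlinarith
    nlinarith
  have h12 : (x - 1) * (361 * x ^ 2) ≤ 128 * x * (x * (x + 1)) := by linarith
  have h13 : x ^ 2 * (361 * (x - 1)) ≤ x ^ 2 * (128 * (x + 1)) := by linarith [h12, (by ring : (x - 1) * (361 * x ^ 2) = x ^ 2 * (361 * (x - 1))), (by ring : 128 * x * (x * (x + 1)) = x ^ 2 * (128 * (x + 1)))]
  have h14 := le_of_mul_le_mul_left h13 (by positivity)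
  linarith

theorem order (c : Ctx M A B) (d : ℕ) (hd1 : 1 ≤ d) (hd2 : d ≤ M - 2) (U V : ℤ) :
    ¬ Q A B d U V := by
  induction d using Nat.strong_induction_on generalizing U V with
  | _ d ih =>
  intro hQ0
  have hM := c.hM
  have hB := c.hB
  have h9 := c.hAB'
  -- choose `|V|` minimal
  obtain ⟨U, V, hQ, hmin⟩ : ∃ U V : ℤ, Q A B d U V ∧ ∀ U' V', Q A B d U' V' → |V| ≤ |V'| := by
    classical
    have hex : ∃ n : ℕ, ∃ U V : ℤ, Q A B d U V ∧ V.natAbs = n := ⟨_, U, V, hQ0, rfl⟩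
    obtain ⟨U1, V1, hQ1, hn⟩ := Nat.find_spec hex
    refine ⟨U1, V1, hQ1, fun U' V' h => ?_⟩
    have := Nat.find_min' hex ⟨U', V', h, rfl⟩
    rw [← hn] at this
    rw [Int.abs_eq_natAbs, Int.abs_eq_natAbs]
    exact_mod_cast this
  -- parity
  have hpar : Odd U ∧ Odd V := by
    have h2 : (2 : ℤ) ∣ U * B - V := (dvd_pow_self 2 (by omega)).trans hQ.2
    rcases c.parity h2 with ⟨hU, hV, _⟩ | ⟨⟨U', hU'⟩, ⟨V', hV'⟩⟩
    · exact ⟨hU, hV⟩
    · exfalso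
      have e1 : U ^ 2 - A * V ^ 2 = 4 * (U' ^ 2 - A * V' ^ 2) := by rw [hU', hV']; ring
      have e2 : (2 : ℤ) ^ (d + 2) = 4 * 2 ^ d := by rw [pow_add]; ring
      have e3 : U' ^ 2 - A * V' ^ 2 = 2 ^ d ∨ U' ^ 2 - A * V' ^ 2 = -2 ^ d := by
        rcases hQ.1 with h | h
        · left; rw [e1, e2] at h; linarith
        · right; rw [e1, e2] at h; linarith
      have e4 : (2 : ℤ) ^ d ∣ U' * B - V' := by
        have h := hQ.2
        have e5 : U * B - V = 2 * (U' * B - V') := by rw [hU', hV']; ring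
        rw [e5, pow_succ'] at h
        exact (mul_dvd_mul_iff_left (two_ne_zero (α := ℤ))).mp h
      have h3 : (2 : ℤ) ∣ U' * B - V' := (dvd_pow_self 2 (by omega)).trans e4
      rcases Nat.lt_or_ge d 3 with h4 | h4
      · rcases c.parity h3 with ⟨_, _, h5⟩ | ⟨⟨U2, hU2⟩, ⟨V2, hV2⟩⟩
        · interval_cases d <;> rcases e3 with h | h <;> rw [h] at h5 <;> norm_num at h5
        · have e6 : U' ^ 2 - A * V' ^ 2 = 4 * (U2 ^ 2 - A * V2 ^ 2) := by rw [hU2, hV2]; ring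
          interval_cases d
          · rcases e3 with h | h <;> rw [e6] at h <;> omega
          · have h7 : (2 : ℤ) ∣ U2 * B - V2 := by
              have e5 : U' * B - V' = 2 * (U2 * B - V2) := by rw [hU2, hV2]; ring
              rw [e5, pow_succ', pow_one] at e4
              exact (mul_dvd_mul_iff_left (two_ne_zero (α := ℤ))).mp e4
            have e7 : U2 ^ 2 - A * V2 ^ 2 = 1 ∨ U2 ^ 2 - A * V2 ^ 2 = -1 := by
              rcases e3 with h | h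
              · left; rw [e6] at h; norm_num at h; linarith
              · right; rw [e6] at h; norm_num at h; linarith
            rcases c.parity h7 with ⟨_, _, h8⟩ | ⟨⟨U3, hU3⟩, ⟨V3, hV3⟩⟩
            · rcases e7 with h | h <;> rw [h] at h8 <;> norm_num at h8
            · have e8 : U2 ^ 2 - A * V2 ^ 2 = 4 * (U3 ^ 2 - A * V3 ^ 2) := by rw [hU3, hV3]; ring
              rcases e7 with h | h <;> rw [e8] at h <;> omega
      · refine ih (d - 2) (by omega) (by omega) (by omega) U' V' ⟨?_, ?_⟩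
        · have : d - 2 + 2 = d := by omega
          rw [this]; exact e3
        · exact (pow_dvd_pow 2 (by omega)).trans e4
  -- the exponent
  set e := (M - 1) / d with he
  set r := (M - 1) % d with hr
  have hdm : M - 1 = e * d + r := by
    have := Nat.div_add_mod (M - 1) d
    rw [← he, ← hr] at this
    rw [mul_comm]; omega
  have hrd : r < d := Nat.mod_lt _ (by omega)
  have hr0 : r = 0 := by
    by_contra hc
    obtain ⟨U', V', hQ', _⟩ := c.descent hd1 hQ e r hdm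
    exact ih r hrd (by omega) (by omega) U' V' hQ'
  have hed : M - 1 = e * d := by omega
  have hModd : Odd (M - 1) := by
    obtain ⟨k, hk⟩ := c.hMe
    exact ⟨k - 1, by omega⟩
  have hodd : Odd e := by
    rw [hed] at hModd
    exact (Nat.odd_mul.mp hModd).1
  have he3 : 3 ≤ e := by
    obtain ⟨k, hk⟩ := hodd
    rcases Nat.eq_zero_or_pos k with h | h
    · exfalso
      rw [h] at hk
      rw [hk] at hed
      omega
    · omega
  have h3d : 3 * d ≤ M - 1 := by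
    rw [hed]; exact Nat.mul_le_mul_right d he3
  obtain ⟨s, hs, hN⟩ : ∃ s : ℤ, (s = 1 ∨ s = -1) ∧ U ^ 2 - A * V ^ 2 = s * 2 ^ (d + 2) := by
    rcases hQ.1 with h | h
    · exact ⟨1, Or.inl rfl, by rw [h, one_mul]⟩
    · exact ⟨-1, Or.inr rfl, by rw [h]; ring⟩
  obtain ⟨τ, hτ, hdvd⟩ := c.residue hd1 hodd hed hpar.2 s hs hN hQ.2
  -- size
  have hsmall := c.small_V hQ (hmin _ _ (c.Q_plus (by omega) hQ)) (hmin _ _ (c.Q_minus (by omega) hQ))
  have hx256 : (256 : ℤ) ≤ 2 ^ M := by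
    calc (256 : ℤ) = 2 ^ 8 := by norm_num
      _ ≤ 2 ^ M := pow_le_pow_right₀ (by norm_num) hM
  have hD1 : (1 : ℤ) ≤ 2 ^ d := one_le_pow₀ (by norm_num)
  have hDx : 2 * ((2 : ℤ) ^ d) ^ 3 ≤ 2 ^ M := by
    rw [← pow_mul, ← pow_succ']
    exact pow_le_pow_right₀ (by norm_num) (by omega)
  have h4D : (2 : ℤ) ^ (d + 2) = 4 * 2 ^ d := by rw [pow_add]; ring
  have hU2 : (2 ^ M - 1) * U ^ 2 ≤ 4 * 2 ^ d * (2 ^ M * (2 ^ M + 1)) := by
    have hsN : s * 2 ^ (d + 2) ≤ 2 ^ (d + 2) := by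
      have : (0 : ℤ) < 2 ^ (d + 2) := by positivity
      rcases hs with h | h <;> rw [h] <;> linarith
    have h5 : U ^ 2 ≤ A * V ^ 2 + 2 ^ (d + 2) := by linarith
    have h6 : (2 ^ M - 1) * U ^ 2 ≤ (2 ^ M - 1) * (A * V ^ 2 + 2 ^ (d + 2)) :=
      mul_le_mul_of_nonneg_left h5 (by linarith)
    have hA : (0 : ℤ) ≤ A := by positivity
    have h7 : A * (V ^ 2 * (2 ^ M - 1)) ≤ A * (2 ^ (d + 2) * B ^ 2) :=
      mul_le_mul_of_nonneg_left hsmall hA
    have h8 : A * (2 ^ (d + 2) * B ^ 2) = 2 ^ (d + 2) * ((2 ^ M) ^ 2 + 1) := by rw [h9]; ring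
    rw [h8] at h7
    rw [h4D] at h6 h7
    nlinarith
  have hnum := numeric (2 ^ M) (2 ^ d) U hD1 hx256 hDx hU2
  have hUeq : U - τ * (1 + s * 2 ^ d) = 0 := by
    apply Int.eq_zero_of_abs_lt_dvd hdvd
    have h10 : (2 : ℤ) ^ M = 2 * 2 ^ (M - 1) := by rw [← pow_succ']; congr 1; omega
    have h11 : |τ * (1 + s * 2 ^ d)| ≤ 1 + 2 ^ d := by
      rw [abs_le]
      rcases hτ with h | h <;> rcases hs with h' | h' <;> rw [h, h'] <;> constructor <;> linarith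
    have h12 := abs_sub U (τ * (1 + s * 2 ^ d))
    linarith
  have hU3 : U = τ * (1 + s * 2 ^ d) := by linarith
  have hτ2 : τ ^ 2 = 1 := by rcases hτ with h | h <;> rw [h] <;> norm_num
  have hs2 : s ^ 2 = 1 := by rcases hs with h | h <;> rw [h] <;> norm_num
  have hAV : A * V ^ 2 = (1 - s * 2 ^ d) ^ 2 := by
    rw [hU3, h4D] at hN
    linear_combination -hN + (1 + s * 2 ^ d) ^ 2 * hτ2
  have hVne : V ≠ 0 := by
    rintro h
    rw [h] at hpar
    exact absurd hpar.2 (by decide)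
  have hdv : V ^ 2 ∣ (1 - s * 2 ^ d) ^ 2 := ⟨A, by rw [← hAV]; ring⟩
  have hdv' : V ∣ (1 - s * 2 ^ d) := (Int.pow_dvd_pow_iff two_ne_zero).mp hdv
  obtain ⟨t, ht⟩ := hdv'
  apply c.notsq
  have hAt : (A : ℤ) = t ^ 2 := by
    rw [ht] at hAV
    have : V ^ 2 * A = V ^ 2 * t ^ 2 := by linarith [hAV, (by ring : (V * t) ^ 2 = V ^ 2 * t ^ 2)]
    exact mul_left_cancel₀ (pow_ne_zero 2 hVne) this
  refine ⟨t.natAbs, ?_⟩
  have : (A : ℤ) = ((t.natAbs * t.natAbs : ℕ) : ℤ) := by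
    push_cast
    rw [hAt, ← sq, sq_abs]
  exact_mod_cast this

end Ctx

end Pool.Agent.helper38.SqFree2
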