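import Mathlib
import Pool.Agent.helper38.SqFree2.Order3

namespace Pool.Agent.helper38.SqFree2

/-- exponent of two -/
def nu (n : ℕ) : ℕ := n.factorization 2

/-- odd part -/
def op (n : ℕ) : ℕ := n / 2 ^ (n.factorization 2)

lemma two_pow_mul_op (n : ℕ) : 2 ^ nu n * op n = n := Nat.ordProj_mul_ordCompl_eq_self n 2

lemma op_odd {n : ℕ} (hn : n ≠ 0) : Odd (op n) :=
  Nat.coprime_two_left.mp (Nat.coprime_ordCompl Nat.prime_two hn)

lemma op_pos {n : ℕ} (hn : n ≠ 0) : 0 < op n := (op_odd hn).pos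

lemma card_div (n : ℕ) (hn : n ≠ 0) :
    (nu n + 1) * (Nat.divisors (op n)).card = (Nat.divisors n).card := by
  have h1 : Nat.Coprime (2 ^ nu n) (op n) := by
    apply Nat.Coprime.pow_left
    exact Nat.coprime_two_left.mpr (op_odd hn)
  have h2 := Nat.Coprime.card_divisors_mul h1
  rw [two_pow_mul_op] at h2
  rw [h2]
  congr 1
  rw [Nat.divisors_prime_pow Nat.prime_two]
  simp

namespace Ctx

variable {M A : ℕ} {B : ℤ}

lemma norm_ne_zero (c : Ctx M A B) {a q : ℤ} (ha : a ≠ 0) : a ^ 2 - A * q ^ 2 ≠ 0 := by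
  intro h
  have hq : q ≠ 0 := by
    rintro rfl
    apply ha
    have : a ^ 2 = 0 := by linarith
    exact pow_eq_zero_iff (two_ne_zero) |>.mp this
  have hdv : q ^ 2 ∣ a ^ 2 := ⟨A, by linarith⟩
  have hdv' : q ∣ a := (Int.pow_dvd_pow_iff two_ne_zero).mp hdv
  obtain ⟨t, ht⟩ := hdv'
  apply c.notsq
  have hAt : (A : ℤ) = t ^ 2 := by
    rw [ht] at h
    have : q ^ 2 * A = q ^ 2 * t ^ 2 := by linarith [h, (by ring : (q * t) ^ 2 = q ^ 2 * t ^ 2)]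
    exact mul_left_cancel₀ (pow_ne_zero 2 hq) this
  refine ⟨t.natAbs, ?_⟩
  have : (A : ℤ) = ((t.natAbs * t.natAbs : ℕ) : ℤ) := by
    push_cast
    rw [hAt, ← sq, sq_abs]
  exact_mod_cast this

lemma four_pow_eq (M : ℕ) : ((2 : ℤ) ^ M) ^ 2 = 2 ^ (2 * M) := by
  rw [← pow_mul, mul_comm]

/-- the norm is divisible by `2 ^ i` -/
lemma norm_dvd (c : Ctx M A B) {i : ℕ} (hi : i ≤ 2 * M) {a q : ℤ} (h : (2 : ℤ) ^ i ∣ a * B - q) :
    (2 : ℤ) ^ i ∣ a ^ 2 - A * q ^ 2 := by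
  have h9 := c.hAB'
  have h1 : (2 : ℤ) ^ i ∣ (2 ^ M) ^ 2 := by
    rw [four_pow_eq]; exact pow_dvd_pow 2 hi
  have h2 : (2 : ℤ) ^ i ∣ B * (B * (a ^ 2 - A * q ^ 2)) := by
    have e : B * (B * (a ^ 2 - A * q ^ 2)) = (a * B - q) * (a * B + q) - (2 ^ M) ^ 2 * q ^ 2 := by
      linear_combination q ^ 2 * h9
    rw [e]
    exact dvd_sub (h.mul_right _) (h1.mul_right _)
  exact (c.coprime_two_pow i).dvd_of_dvd_mul_left ((c.coprime_two_pow i).dvd_of_dvd_mul_left h2)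

/-- splitting of the power of two -/
lemma exists_v (c : Ctx M A B) {i ν : ℕ} (hiν : i + ν ≤ 2 * M) {a q : ℤ}
    (h : (2 : ℤ) ^ i ∣ a * B - q) (hN : (2 : ℤ) ^ (i + ν) ∣ a ^ 2 - A * q ^ 2) :
    ∃ v ≤ ν, (2 : ℤ) ^ (i + ν - v) ∣ a * B - q ∧ (2 : ℤ) ^ v ∣ a * B + q := by
  have h9 := c.hAB'
  have hprod : (2 : ℤ) ^ (i + ν) ∣ (a * B - q) * (a * B + q) := by
    have h1 : (2 : ℤ) ^ (i + ν) ∣ (2 ^ M) ^ 2 := by
      rw [four_pow_eq]; exact pow_dvd_pow 2 hiν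
    have e : (a * B - q) * (a * B + q) = B ^ 2 * (a ^ 2 - A * q ^ 2) + (2 ^ M) ^ 2 * q ^ 2 := by
      linear_combination (-q ^ 2) * h9
    rw [e]
    exact dvd_add (hN.mul_left _) (h1.mul_right _)
  by_cases hbig : (2 : ℤ) ^ (i + ν) ∣ a * B - q
  · exact ⟨0, Nat.zero_le _, by simpa using hbig, by simp⟩
  · -- the exact power
    have hex : ∃ s : ℕ, ¬ (2 : ℤ) ^ s ∣ a * B - q := ⟨_, hbig⟩
    classical
    set s := Nat.find hex with hs
    have hs1 : ¬ (2 : ℤ) ^ s ∣ a * B - q := Nat.find_spec hex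
    have hs2 : s ≤ i + ν := Nat.find_min' hex hbig
    have hs3 : i < s := by
      by_contra hc
      push Not at hc
      exact hs1 ((pow_dvd_pow 2 hc).trans h)
    have hs4 : (2 : ℤ) ^ (s - 1) ∣ a * B - q := by
      by_contra hc
      exact Nat.find_min hex (m := s - 1) (by omega) hc
    obtain ⟨w, hw⟩ := hs4
    have hwodd : Odd w := by
      rw [← Int.not_even_iff_odd]
      intro he
      obtain ⟨w', hw'⟩ := he
      apply hs1
      refine ⟨w', ?_⟩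
      have : (2 : ℤ) ^ s = 2 ^ (s - 1) * 2 := by rw [← pow_succ]; congr 1; omega
      rw [hw, hw', this]; ring
    refine ⟨i + ν - (s - 1), by omega, ?_, ?_⟩
    · have : i + ν - (i + ν - (s - 1)) = s - 1 := by omega
      rw [this]; exact ⟨w, hw⟩
    · have h3 : (2 : ℤ) ^ (i + ν) = 2 ^ (s - 1) * 2 ^ (i + ν - (s - 1)) := by
        rw [← pow_add]; congr 1; omega
      rw [h3, hw, mul_assoc] at hprod
      have h4 := (mul_dvd_mul_iff_left (by positivity : (2 : ℤ) ^ (s - 1) ≠ 0)).mp hprod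
      have h5 : IsCoprime ((2 : ℤ) ^ (i + ν - (s - 1))) w := by
        apply IsCoprime.pow_left
        obtain ⟨j, hj⟩ := hwodd
        exact ⟨-j, 1, by rw [hj]; ring⟩
      exact h5.dvd_of_dvd_mul_left h4

/-- the odd part of the label -/
lemma exists_root (A a q : ℤ) (m : ℕ) (hm : 0 < m) (hcop : IsCoprime (m : ℤ) q)
    (hN : (m : ℤ) ∣ a ^ 2 - A * q ^ 2) :
    ∃ b : ℕ, b < m ∧ (m : ℤ) ∣ q * b - a ∧ (m : ℤ) ∣ (b : ℤ) ^ 2 - A := by
  obtain ⟨u, v, huv⟩ := hcop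
  have hm0 : (m : ℤ) ≠ 0 := by exact_mod_cast hm.ne'
  have hmpos : (0 : ℤ) < m := by exact_mod_cast hm
  have h6 := Int.emod_nonneg (a * v) hm0
  have h5 := Int.emod_lt_of_pos (a * v) hmpos
  refine ⟨((a * v) % m).toNat, by omega, ?_, ?_⟩
  · rw [Int.toNat_of_nonneg h6]
    have h7 : (a * v) % m = a * v - m * ((a * v) / m) := by
      have := Int.emod_add_mul_ediv (a * v) m
      linarith
    rw [h7]
    refine ⟨-(u * a) - q * ((a * v) / m), ?_⟩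
    linear_combination a * huv
  · rw [Int.toNat_of_nonneg h6]
    set b := (a * v) % m with hb
    have h7 : (a * v) % m = a * v - m * ((a * v) / m) := by
      have := Int.emod_add_mul_ediv (a * v) m
      linarith
    have h8 : (m : ℤ) ∣ q * b - a := by
      rw [hb, h7]
      refine ⟨-(u * a) - q * ((a * v) / m), ?_⟩
      linear_combination a * huv
    have h9 : (m : ℤ) ∣ q ^ 2 * (b ^ 2 - A) := by
      have h10 : q ^ 2 * (b ^ 2 - A) = (q * b - a) * (q * b + a) + (a ^ 2 - A * q ^ 2) := by ring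
      rw [h10]
      exact dvd_add (h8.mul_right _) hN
    have h11 : IsCoprime (m : ℤ) (q ^ 2) := IsCoprime.pow_right ⟨u, v, huv⟩
    exact h11.dvd_of_dvd_mul_left h9

/-- The product of two elements with the same label. -/
lemma collision (c : Ctx M A B) {i j : ℕ} (hji : j ≤ i) {a1 q1 a2 q2 : ℤ}
    (n : ℕ) (hn : n ≠ 0) (s : ℤ) (hs : s = 1 ∨ s = -1)
    (hN1 : a1 ^ 2 - A * q1 ^ 2 = s * 2 ^ i * n) (hN2 : a2 ^ 2 - A * q2 ^ 2 = s * 2 ^ j * n)
    (v : ℕ) (hv : v ≤ nu n) (hiν : i + nu n ≤ 2 * M)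
    (h1 : (2 : ℤ) ^ (i + nu n - v) ∣ a1 * B - q1) (h1' : (2 : ℤ) ^ v ∣ a1 * B + q1)
    (h2 : (2 : ℤ) ^ (j + nu n - v) ∣ a2 * B - q2) (h2' : (2 : ℤ) ^ v ∣ a2 * B + q2)
    (b : ℤ) (hb : (op n : ℤ) ∣ b ^ 2 - A) (hb1 : (op n : ℤ) ∣ q1 * b - a1)
    (hb2 : (op n : ℤ) ∣ q2 * b - a2) :
    ∃ U V : ℤ, 2 * (a1 * a2 - A * q1 * q2) = 2 ^ j * n * U ∧
      2 * (q1 * a2 - a1 * q2) = 2 ^ j * n * V ∧ (2 : ℤ) ^ (i - j + 1) ∣ U * B - V ∧
      U ^ 2 - A * V ^ 2 = 2 ^ (i - j + 2) := by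
  have h9 := c.hAB'
  set ν := nu n with hν
  have hno : Odd (op n) := op_odd hn
  have hnfac : (2 : ℤ) ^ ν * (op n : ℤ) = n := by
    have := two_pow_mul_op n
    rw [← hν] at this
    exact_mod_cast this
  have hoddz : ∀ e : ℕ, IsCoprime ((2 : ℤ) ^ e) (op n : ℤ) := by
    intro e
    apply IsCoprime.pow_left
    obtain ⟨k, hk⟩ := hno
    refine ⟨-k, 1, by rw [hk]; push_cast; ring⟩
  set X := a1 * a2 - A * q1 * q2 with hX
  set Y := q1 * a2 - a1 * q2 with hY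
  have hx1 : ∀ e : ℕ, e ≤ 2 * M → (2 : ℤ) ^ e ∣ (2 ^ M) ^ 2 := by
    intro e he
    rw [four_pow_eq]; exact pow_dvd_pow 2 he
  have g1 : (2 : ℤ) ^ (j + ν) ∣ X * B + Y := by
    have h3 : (2 : ℤ) ^ (j + ν) ∣ B * (X * B + Y) := by
      have e : B * (X * B + Y) = (a1 * B + q1) * (a2 * B - q2) - (2 ^ M) ^ 2 * (q1 * q2) := by
        rw [hX, hY]; linear_combination (q1 * q2) * h9
      rw [e]
      refine dvd_sub ?_ ((hx1 _ (by omega)).mul_right _)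
      have : (2 : ℤ) ^ (j + ν) = 2 ^ v * 2 ^ (j + ν - v) := by rw [← pow_add]; congr 1; omega
      rw [this]
      exact mul_dvd_mul h1' h2
    exact (c.coprime_two_pow _).dvd_of_dvd_mul_left h3
  have g2 : (2 : ℤ) ^ (i + ν) ∣ X * B - Y := by
    have h3 : (2 : ℤ) ^ (i + ν) ∣ B * (X * B - Y) := by
      have e : B * (X * B - Y) = (a1 * B - q1) * (a2 * B + q2) - (2 ^ M) ^ 2 * (q1 * q2) := by
        rw [hX, hY]; linear_combination (q1 * q2) * h9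
      rw [e]
      refine dvd_sub ?_ ((hx1 _ hiν).mul_right _)
      have : (2 : ℤ) ^ (i + ν) = 2 ^ (i + ν - v) * 2 ^ v := by rw [← pow_add]; congr 1; omega
      rw [this]
      exact mul_dvd_mul h1 h2'
    exact (c.coprime_two_pow _).dvd_of_dvd_mul_left h3
  have g2' : (2 : ℤ) ^ (j + ν) ∣ X * B - Y := (pow_dvd_pow 2 (by omega)).trans g2
  have g3 : (2 : ℤ) ^ (j + ν) ∣ 2 * X := by
    have h3 : (2 : ℤ) ^ (j + ν) ∣ B * (2 * X) := by
      have e : B * (2 * X) = (X * B + Y) + (X * B - Y) := by ring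
      rw [e]; exact dvd_add g1 g2'
    exact (c.coprime_two_pow _).dvd_of_dvd_mul_left h3
  have g4 : (2 : ℤ) ^ (j + ν) ∣ 2 * Y := by
    have e : 2 * Y = (X * B + Y) - (X * B - Y) := by ring
    rw [e]; exact dvd_sub g1 g2'
  have o1 : (op n : ℤ) ∣ X := by
    obtain ⟨e1, he1⟩ := hb1
    obtain ⟨e2, he2⟩ := hb2
    obtain ⟨e3, he3⟩ := hb
    have ha1 : a1 = q1 * b - op n * e1 := by linarith
    have ha2 : a2 = q2 * b - op n * e2 := by linarith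
    refine ⟨q1 * q2 * e3 - q1 * b * e2 - q2 * b * e1 + op n * e1 * e2, ?_⟩
    rw [hX, ha1, ha2]
    linear_combination (q1 * q2) * he3
  have o2 : (op n : ℤ) ∣ Y := by
    obtain ⟨e1, he1⟩ := hb1
    obtain ⟨e2, he2⟩ := hb2
    have ha1 : a1 = q1 * b - op n * e1 := by linarith
    have ha2 : a2 = q2 * b - op n * e2 := by linarith
    refine ⟨-q1 * e2 + q2 * e1, ?_⟩
    rw [hY, ha1, ha2]
    ring
  have hfac : (2 : ℤ) ^ (j + ν) * (op n : ℤ) = 2 ^ j * n := by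
    rw [← hnfac, pow_add]; ring
  have k1 : (2 : ℤ) ^ j * n ∣ 2 * X := by
    rw [← hfac]
    exact (hoddz _).mul_dvd g3 (o1.mul_left _)
  have k2 : (2 : ℤ) ^ j * n ∣ 2 * Y := by
    rw [← hfac]
    exact (hoddz _).mul_dvd g4 (o2.mul_left _)
  obtain ⟨U, hU⟩ := k1
  obtain ⟨V, hV⟩ := k2
  have hn0 : (n : ℤ) ≠ 0 := by exact_mod_cast hn
  have hjn : (2 : ℤ) ^ j * n ≠ 0 := mul_ne_zero (by positivity) hn0
  refine ⟨U, V, hU, hV, ?_, ?_⟩
  · have h3 : (2 : ℤ) ^ (i + ν + 1) ∣ 2 * (X * B - Y) := by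
      rw [pow_succ']; exact mul_dvd_mul_left 2 g2
    have h4 : 2 * (X * B - Y) = 2 ^ (j + ν) * (op n * (U * B - V)) := by
      have : 2 * (X * B - Y) = (2 * X) * B - 2 * Y := by ring
      rw [this, hU, hV, ← hfac]; ring
    have h5 : (2 : ℤ) ^ (i + ν + 1) = 2 ^ (j + ν) * 2 ^ (i - j + 1) := by
      rw [← pow_add]; congr 1; omega
    rw [h4, h5] at h3
    have h6 := (mul_dvd_mul_iff_left (by positivity : (2 : ℤ) ^ (j + ν) ≠ 0)).mp h3
    exact (hoddz _).dvd_of_dvd_mul_left h6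
  · have h3 : (2 ^ j * n) ^ 2 * (U ^ 2 - A * V ^ 2) = (2 ^ j * n) ^ 2 * 2 ^ (i - j + 2) := by
      have hs2 : s ^ 2 = 1 := by rcases hs with h | h <;> rw [h] <;> norm_num
      have e1 : ((2 : ℤ) ^ j * n) ^ 2 * (U ^ 2 - A * V ^ 2) = (2 * X) ^ 2 - A * (2 * Y) ^ 2 := by
        rw [hU, hV]; ring
      have e2 : (2 * X) ^ 2 - A * (2 * Y) ^ 2
          = 4 * ((a1 ^ 2 - A * q1 ^ 2) * (a2 ^ 2 - A * q2 ^ 2)) := by
        rw [hX, hY]; ring
      have e3 : (2 : ℤ) ^ (i - j + 2) = 4 * 2 ^ (i - j) := by rw [pow_add]; ring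
      have e4 : (2 : ℤ) ^ i = 2 ^ j * 2 ^ (i - j) := by rw [← pow_add]; congr 1; omega
      rw [e1, e2, hN1, hN2, e3, e4]
      linear_combination (4 * 2 ^ j * 2 ^ (i - j) * n * 2 ^ j * n) * hs2
    exact mul_left_cancel₀ (pow_ne_zero 2 hjn) h3

/-- A collision between different ideal classes is impossible. -/
lemma no_collision (c : Ctx M A B) {i j : ℕ} (hji : j < i) (hi : i ≤ M - 2) {U V : ℤ}
    (h1 : (2 : ℤ) ^ (i - j + 1) ∣ U * B - V) (h2 : U ^ 2 - A * V ^ 2 = 2 ^ (i - j + 2)) : False :=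
  c.order (i - j) (by omega) (by omega) U V ⟨Or.inl h2, h1⟩

end Ctx

end Pool.Agent.helper38.SqFree2
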