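import Mathlib
import Pool.Agent.helper38.SqFree2.Count1

namespace Pool.Agent.helper38.SqFree2

/-- The number to be approximated for the `i`-th class. -/
noncomputable def theta (A : ℕ) (B : ℤ) (i : ℕ) : ℝ := (B * √(A : ℝ) - 1) / (2 ^ i * √(A : ℝ))

namespace Ctx

variable {M A : ℕ} {B : ℤ}

lemma w_pos (c : Ctx M A B) : 0 < √(A : ℝ) := by
  apply Real.sqrt_pos.mpr
  exact_mod_cast c.A_pos

lemma alpha_eq (c : Ctx M A B) (i : ℕ) (a p : ℤ) :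
    (a : ℝ) - ((a * B - 2 ^ i * p : ℤ) : ℝ) * √(A : ℝ)
      = -(2 ^ i * √(A : ℝ)) * (a * theta A B i - p) := by
  have hw := c.w_pos
  rw [theta]
  push_cast
  field_simp
  ring

/-- The norms are small. -/
lemma norm_small (c : Ctx M A B) (k0 : ℕ) (hk0 : A ≤ 4 ^ k0) (i k j : ℕ) (a p : ℤ) (ha : 1 ≤ a)
    (hja : (2 : ℝ) ^ j * a ≤ 2 ^ (i + k0 + k))
    (happ : |(a : ℝ) * theta A B i - p| ≤ 1 / ((2 : ℝ) ^ (i + k0 + k) + 1)) :
    (2 : ℝ) ^ j * |((a ^ 2 - A * (a * B - 2 ^ i * p) ^ 2 : ℤ) : ℝ)| ≤ 3 * 2 ^ i * √(A : ℝ) := by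
  have hw := c.w_pos
  set w := √(A : ℝ) with hwdef
  have hw2 : w ^ 2 = A := Real.sq_sqrt (by positivity)
  have hwk : w ≤ 2 ^ k0 := by
    rw [hwdef]
    apply Real.sqrt_le_iff.mpr
    refine ⟨by positivity, ?_⟩
    rw [← pow_mul, mul_comm k0 2, pow_mul]
    norm_num
    exact_mod_cast hk0
  set T : ℝ := 2 ^ (i + k0 + k) with hT
  have hT0 : 0 < T + 1 := by positivity
  set δ := |(a : ℝ) * theta A B i - p| with hδ
  have hδ1 : δ * (T + 1) ≤ 1 := by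
    rwa [le_div_iff₀ hT0] at happ
  have hδ0 : 0 ≤ δ := abs_nonneg _
  set q : ℤ := a * B - 2 ^ i * p with hq
  have hα : |(a : ℝ) - (q : ℝ) * w| = 2 ^ i * w * δ := by
    have := c.alpha_eq i a p
    rw [← hq, ← hwdef] at this
    rw [this, abs_mul, abs_neg, abs_of_pos (by positivity)]
  have hα1 : |(a : ℝ) - (q : ℝ) * w| ≤ 1 := by
    rw [hα]
    have h1 : 2 ^ i * w ≤ T := by
      calc 2 ^ i * w ≤ 2 ^ i * 2 ^ k0 := by gcongr
        _ = 2 ^ (i + k0) := by rw [pow_add]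
        _ ≤ T := pow_le_pow_right₀ (by norm_num) (by omega)
    calc 2 ^ i * w * δ ≤ T * δ := by gcongr
      _ ≤ (T + 1) * δ := by gcongr; linarith
      _ ≤ 1 := by linarith
  have ha' : (1 : ℝ) ≤ a := by exact_mod_cast ha
  have hβ : |(a : ℝ) + (q : ℝ) * w| ≤ 3 * a := by
    have e : (a : ℝ) + (q : ℝ) * w = 2 * a - (a - q * w) := by ring
    rw [e]
    calc |2 * (a : ℝ) - (a - q * w)| ≤ |2 * (a : ℝ)| + |(a : ℝ) - q * w| := abs_sub _ _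
      _ ≤ 2 * a + 1 := by
          rw [abs_of_nonneg (by linarith : (0 : ℝ) ≤ 2 * a)]; linarith
      _ ≤ 3 * a := by linarith
  have hN : |((a ^ 2 - A * q ^ 2 : ℤ) : ℝ)| = (2 ^ i * w * δ) * |(a : ℝ) + (q : ℝ) * w| := by
    rw [← hα, ← abs_mul]
    congr 1
    push_cast
    rw [← hw2]; ring
  rw [hN]
  calc (2 : ℝ) ^ j * ((2 ^ i * w * δ) * |(a : ℝ) + (q : ℝ) * w|)
      ≤ 2 ^ j * ((2 ^ i * w * δ) * (3 * a)) := by gcongr
    _ = 3 * (2 ^ i * w) * (δ * (2 ^ j * a)) := by ring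
    _ ≤ 3 * (2 ^ i * w) * (δ * (T + 1)) := by gcongr; linarith
    _ ≤ 3 * (2 ^ i * w) * 1 := by gcongr
    _ = 3 * 2 ^ i * w := by ring

lemma nat_small (A i j : ℕ) (m : ℤ)
    (h : (2 : ℝ) ^ j * |((2 ^ i * m : ℤ) : ℝ)| ≤ 3 * 2 ^ i * √(A : ℝ)) :
    2 ^ j * m.natAbs ≤ Nat.sqrt (9 * A) := by
  rw [Nat.le_sqrt']
  have h1 : (((2 ^ j * m.natAbs : ℕ)) : ℝ) ≤ 3 * √(A : ℝ) := by
    push_cast
    rw [Nat.cast_natAbs]
    push_cast at h ⊢
    rw [abs_mul, abs_of_pos (by positivity : (0 : ℝ) < 2 ^ i)] at h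
    have h2 : (2 : ℝ) ^ i * (2 ^ j * |(m : ℝ)|) ≤ 2 ^ i * (3 * √(A : ℝ)) := by linarith
    exact le_of_mul_le_mul_left h2 (by positivity)
  have h3 : (((2 ^ j * m.natAbs : ℕ)) : ℝ) ^ 2 ≤ (3 * √(A : ℝ)) ^ 2 := by gcongr
  have h4 : (3 * √(A : ℝ)) ^ 2 = ((9 * A : ℕ) : ℝ) := by
    push_cast; rw [mul_pow, Real.sq_sqrt (by positivity)]; norm_num
  rw [h4] at h3
  exact_mod_cast h3

lemma A_le (c : Ctx M A B) : A ≤ 4 ^ M + 1 := by
  have h := c.hAB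
  have hB : 1 ≤ B ^ 2 := by
    have := c.hB
    nlinarith
  have h1 : (A : ℤ) ≤ 4 ^ M + 1 := by
    rw [← h]
    have : (0 : ℤ) ≤ A := by positivity
    nlinarith
  exact_mod_cast h1

lemma nu_le (c : Ctx M A B) {n : ℕ} (hn : n ≠ 0) (h : n ≤ Nat.sqrt (9 * A)) : nu n ≤ M + 1 := by
  by_contra hc
  push Not at hc
  rw [Nat.le_sqrt'] at h
  have h1 : 2 ^ nu n ≤ n := by
    have := two_pow_mul_op n
    have h2 := op_pos hn
    nlinarith [Nat.le_mul_of_pos_right (2 ^ nu n) h2]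
  have h2 : 2 ^ (M + 2) ≤ n := (Nat.pow_le_pow_right (by norm_num) (by omega)).trans h1
  have h3 : (2 ^ (M + 2)) ^ 2 ≤ n ^ 2 := Nat.pow_le_pow_left h2 2
  have h4 : (2 ^ (M + 2)) ^ 2 = 16 * 4 ^ M := by
    rw [← pow_mul, mul_comm (M + 2) 2, pow_mul, pow_add]; norm_num; ring
  have h5 := c.A_le
  have h6 : 2 ≤ 4 ^ M := by
    have := c.hM
    calc 2 ≤ 4 ^ 1 := by norm_num
      _ ≤ 4 ^ M := Nat.pow_le_pow_right (by norm_num) (by omega)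
  omega

/-- Existence of the label. -/
lemma exists_label (c : Ctx M A B) {i : ℕ} (hi : i ≤ M - 2) {a p : ℤ} (ha : 1 ≤ a)
    (hcop : IsCoprime a p)
    (hsize : ((2 : ℝ) ^ 0) * |((a ^ 2 - A * (a * B - 2 ^ i * p) ^ 2 : ℤ) : ℝ)| ≤ 3 * 2 ^ i * √(A : ℝ)) :
    ∃ (s : Bool) (n v b : ℕ), n ≠ 0 ∧
      a ^ 2 - A * (a * B - 2 ^ i * p) ^ 2 = (if s then 1 else -1) * 2 ^ i * n ∧
      v ≤ nu n ∧ i + nu n ≤ 2 * M ∧
      (2 : ℤ) ^ (i + nu n - v) ∣ a * B - (a * B - 2 ^ i * p) ∧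
      (2 : ℤ) ^ v ∣ a * B + (a * B - 2 ^ i * p) ∧
      b < op n ∧ (op n : ℤ) ∣ (a * B - 2 ^ i * p) * b - a ∧ (op n : ℤ) ∣ (b : ℤ) ^ 2 - A := by
  have hM := c.hM
  set q : ℤ := a * B - 2 ^ i * p with hq
  have h2i : (2 : ℤ) ^ i ∣ a * B - q := ⟨p, by rw [hq]; ring⟩
  obtain ⟨m, hm⟩ := c.norm_dvd (i := i) (by omega) h2i
  have hm0 : m ≠ 0 := by
    rintro rfl
    exact c.norm_ne_zero (a := a) (q := q) (by omega) (by rw [hm]; ring)
  set n := m.natAbs with hn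
  have hn0 : n ≠ 0 := by rw [hn]; exact Int.natAbs_ne_zero.mpr hm0
  rw [hm] at hsize
  have hnx : n ≤ Nat.sqrt (9 * A) := by
    have := nat_small A i 0 m hsize
    simpa using this
  have hν := c.nu_le hn0 hnx
  have hiν : i + nu n ≤ 2 * M := by omega
  have hnfac : (2 : ℤ) ^ nu n * (op n : ℤ) = n := by
    have := two_pow_mul_op n
    exact_mod_cast this
  have hnm : (n : ℤ) ∣ m := Int.natAbs_dvd.mpr (dvd_refl m)
  have hN2 : (2 : ℤ) ^ (i + nu n) ∣ a ^ 2 - A * q ^ 2 := by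
    rw [hm, pow_add]
    exact mul_dvd_mul_left _ ((Dvd.intro _ hnfac).trans hnm)
  have hNo : (op n : ℤ) ∣ a ^ 2 - A * q ^ 2 := by
    rw [hm]
    exact ((Dvd.intro_left _ hnfac).trans hnm).mul_left _
  obtain ⟨v, hv, hv1, hv2⟩ := c.exists_v hiν h2i hN2
  have hcq : IsCoprime (op n : ℤ) q := by
    rw [Int.isCoprime_iff_nat_coprime, Int.natAbs_natCast]
    by_contra hc
    rw [Nat.Prime.not_coprime_iff_dvd] at hc
    obtain ⟨l, hl, hl1, hl2⟩ := hc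
    have hlz : (l : ℤ) ∣ q := Int.natCast_dvd.mpr hl2
    have hlo : (l : ℤ) ∣ (op n : ℤ) := Int.natCast_dvd_natCast.mpr hl1
    have hlprime : Prime (l : ℤ) := Nat.prime_iff_prime_int.mp hl
    have h3 : (l : ℤ) ∣ a ^ 2 := by
      have h4 := dvd_add (hlo.trans hNo) ((hlz.mul_left (A * q)))
      have e : a ^ 2 - A * q ^ 2 + A * q * q = a ^ 2 := by ring
      rwa [e] at h4
    have h4 : (l : ℤ) ∣ a := hlprime.dvd_of_dvd_pow h3
    have h5 : (l : ℤ) ∣ 2 ^ i * p := by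
      have e : (2 : ℤ) ^ i * p = a * B - q := by rw [hq]; ring
      rw [e]; exact dvd_sub (h4.mul_right _) hlz
    rcases hlprime.dvd_or_dvd h5 with h6 | h6
    · have h7 : (l : ℤ) ∣ 2 := hlprime.dvd_of_dvd_pow h6
      have h8 : l ∣ 2 := by exact_mod_cast h7
      have h9 : l = 2 := (Nat.prime_dvd_prime_iff_eq hl Nat.prime_two).mp h8
      rw [h9] at hl1
      have := op_odd hn0
      rw [← Nat.not_even_iff_odd] at this
      exact this (even_iff_two_dvd.mpr hl1)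
    · have h7 : IsUnit (l : ℤ) := hcop.isUnit_of_dvd' h4 h6
      exact hlprime.not_isUnit h7
  obtain ⟨b, hb1, hb2, hb3⟩ := exists_root (A : ℤ) a q (op n) (op_pos hn0) hcq hNo
  refine ⟨decide (0 < m), n, v, b, hn0, ?_, hv, hiν, hv1, hv2, hb1, hb2, hb3⟩
  rw [hm]
  by_cases hpos : 0 < m
  · have : (n : ℤ) = m := by rw [hn]; exact Int.natAbs_of_nonneg hpos.le
    simp [hpos, this]
  · have : (n : ℤ) = -m := by rw [hn]; omega
    simp [hpos, this]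

end Ctx

end Pool.Agent.helper38.SqFree2
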