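import Mathlib
import Pool.Agent.helper38.SqFree2.Count2
import Pool.Agent.helper69.SqFree.UnitBound

namespace Pool.Agent.helper38.SqFree2

open Finset
open Pool.Agent.helper69.SqFree (scales roots_card div_sum two_pow_le)

/-- labels: sign, `n`, `v`, `b` -/
abbrev Lab : Type := Σ _ : Bool × ℕ, ℕ × ℕ

/-- the set of labels -/
def labels (A x : ℕ) : Finset Lab :=
  ((Finset.univ : Finset Bool) ×ˢ Finset.Ioc 0 x).sigma
    (fun z => (Finset.range (nu z.2 + 1)) ×ˢ
      (Finset.range (op z.2)).filter (fun c : ℕ => (op z.2 : ℤ) ∣ (c : ℤ) ^ 2 - (A : ℤ)))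

lemma sum_labels {A : ℕ} (hA : Squarefree A) (x : ℕ) :
    ∑ z ∈ labels A x, scales x z.1.2
      ≤ 4 * ∑ n ∈ Finset.Ioc 0 x, (Nat.divisors n).card * scales x n := by
  rw [labels, Finset.sum_sigma, Finset.sum_product]
  simp only [Finset.sum_const, smul_eq_mul, Finset.card_univ, Fintype.card_bool,
    Finset.card_product, Finset.card_range]
  have h3 : ∀ n ∈ Finset.Ioc 0 x,
      (nu n + 1) * ((Finset.range (op n)).filter
        (fun c : ℕ => (op n : ℤ) ∣ (c : ℤ) ^ 2 - (A : ℤ))).card * scales x n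
      ≤ 2 * ((Nat.divisors n).card * scales x n) := by
    intro n hn
    rw [Finset.mem_Ioc] at hn
    have hn0 : n ≠ 0 := by omega
    have h4 := roots_card hA (op n) (op_pos hn0)
    calc _ ≤ (nu n + 1) * (2 * (Nat.divisors (op n)).card) * scales x n :=
          Nat.mul_le_mul_right _ (Nat.mul_le_mul_left _ h4)
      _ = 2 * (((nu n + 1) * (Nat.divisors (op n)).card) * scales x n) := by ring
      _ = _ := by rw [card_div n hn0]
  have h4 := Finset.sum_le_sum h3
  rw [← Finset.mul_sum] at h4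
  omega

namespace Ctx

variable {M A : ℕ} {B : ℤ}

/-- The pigeonhole argument. -/
theorem count (c : Ctx M A B) (hA : Squarefree A) (K : ℕ) (hK : (2 : ℤ) ^ K < 2 * 2 ^ M * B) :
    (((M - 1) * K : ℕ) : ℝ) ≤ 8 * ((Nat.sqrt (9 * A) : ℕ) : ℝ) *
      (1 + Real.log ((Nat.sqrt (9 * A) : ℕ) : ℝ)) := by
  classical
  have hM := c.hM
  have hBpos := c.hB
  set x := Nat.sqrt (9 * A) with hx
  obtain ⟨k0, hk0⟩ : ∃ k0 : ℕ, A ≤ 4 ^ k0 := ⟨A, (Nat.lt_pow_self (by norm_num)).le⟩
  have hex : ∀ i k : ℕ, ∃ r : ℚ,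
      |theta A B i - r| ≤ 1 / ((((2 ^ (i + k0 + k) : ℕ) : ℝ) + 1) * r.den) ∧
        r.den ≤ 2 ^ (i + k0 + k) :=
    fun i k => Real.exists_rat_abs_sub_le_and_den_le (theta A B i)
      (n := 2 ^ (i + k0 + k)) (by positivity)
  choose r hr hden using hex
  set a : ℕ → ℕ → ℤ := fun i k => ((r i k).den : ℤ) with ha
  set p : ℕ → ℕ → ℤ := fun i k => (r i k).num with hp
  have ha1 : ∀ i k, 1 ≤ a i k := by
    intro i k
    have := (r i k).den_pos
    simp only [ha]; omega
  have hcop : ∀ i k, IsCoprime (a i k) (p i k) := by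
    intro i k
    simp only [hp, ha]
    have := (r i k).reduced
    rw [Int.isCoprime_iff_nat_coprime]
    simpa using this.symm
  have happ : ∀ i k, |(a i k : ℝ) * theta A B i - p i k| ≤ 1 / ((2 : ℝ) ^ (i + k0 + k) + 1) := by
    intro i k
    have h1 := hr i k
    have hd0 : (0 : ℝ) < (r i k).den := by exact_mod_cast (r i k).den_pos
    have h2 : (a i k : ℝ) * theta A B i - p i k = (r i k).den * (theta A B i - r i k) := by
      simp only [ha, hp]
      push_cast
      have h3 : ((r i k : ℚ) : ℝ) = (r i k).num / (r i k).den := by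
        exact_mod_cast (Rat.num_div_den (r i k)).symm
      rw [mul_sub]
      congr 1
      rw [h3]; field_simp
    rw [h2, abs_mul, abs_of_pos hd0]
    calc ((r i k).den : ℝ) * |theta A B i - r i k|
        ≤ (r i k).den * (1 / ((((2 ^ (i + k0 + k) : ℕ) : ℝ) + 1) * (r i k).den)) := by gcongr
      _ = 1 / ((2 : ℝ) ^ (i + k0 + k) + 1) := by
        push_cast
        field_simp
  have hT : ∀ i k, (a i k : ℝ) ≤ 2 ^ (i + k0 + k) := by
    intro i k
    have := hden i k
    simp only [ha]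
    exact_mod_cast this
  -- labels
  have hlab : ∀ i k : ℕ, i ≤ M - 2 → ∃ (s : Bool) (n v b : ℕ), n ≠ 0 ∧
      a i k ^ 2 - A * (a i k * B - 2 ^ i * p i k) ^ 2 = (if s then 1 else -1) * 2 ^ i * n ∧
      v ≤ nu n ∧ i + nu n ≤ 2 * M ∧
      (2 : ℤ) ^ (i + nu n - v) ∣ a i k * B - (a i k * B - 2 ^ i * p i k) ∧
      (2 : ℤ) ^ v ∣ a i k * B + (a i k * B - 2 ^ i * p i k) ∧
      b < op n ∧ (op n : ℤ) ∣ (a i k * B - 2 ^ i * p i k) * b - a i k ∧
      (op n : ℤ) ∣ (b : ℤ) ^ 2 - A := by
    intro i k hi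
    refine c.exists_label hi (ha1 i k) (hcop i k) ?_
    apply c.norm_small k0 hk0 i k 0 _ _ (ha1 i k) _ (happ i k)
    simpa using hT i k
  choose! s n v b hn0 hNn hv hiν hd1 hd2 hbl hb1 hb2 using hlab
  have hsize : ∀ i k : ℕ, i ≤ M - 2 → ∀ j : ℕ, (a i k : ℝ) * 2 ^ j ≤ 2 ^ (i + k0 + k) →
      2 ^ j * n i k ≤ x := by
    intro i k hi j hj
    have h1 := c.norm_small k0 hk0 i k j _ _ (ha1 i k) (by linarith) (happ i k)
    have h2 := hNn i k hi
    have h3 : a i k ^ 2 - A * (a i k * B - 2 ^ i * p i k) ^ 2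
        = 2 ^ i * ((if s i k then 1 else -1) * n i k) := by rw [h2]; ring
    rw [h3] at h1
    have h4 := nat_small A i j _ h1
    have h5 : ((if s i k then (1 : ℤ) else -1) * (n i k : ℤ)).natAbs = n i k := by
      split_ifs <;> simp
    rwa [h5] at h4
  set f : ℕ × ℕ → Lab := fun z => ⟨(s z.1 z.2, n z.1 z.2), (v z.1 z.2, b z.1 z.2)⟩ with hf
  have hfeq : ∀ y z : ℕ × ℕ, f y = f z →
      s y.1 y.2 = s z.1 z.2 ∧ n y.1 y.2 = n z.1 z.2 ∧ v y.1 y.2 = v z.1 z.2 ∧ b y.1 y.2 = b z.1 z.2 := by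
    intro y z hyz
    simp only [hf] at hyz
    have h1 := congrArg Sigma.fst hyz
    have h2 : (v y.1 y.2, b y.1 y.2) = (v z.1 z.2, b z.1 z.2) := by
      have := (Sigma.mk.inj_iff.mp hyz).2
      exact eq_of_heq this
    simp only [Prod.mk.injEq] at h1 h2
    exact ⟨h1.1, h1.2, h2.1, h2.2⟩
  -- no collisions
  have hno1 : ∀ i k j l : ℕ, j ≤ i → i ≤ M - 2 → k < K → l < K → f (i, k) = f (j, l) →
      i = j ∧ r i k = r j l := by
    intro i k j l hji hi hk hl hfe
    obtain ⟨e1, e2, e3, e4⟩ := hfeq _ _ hfe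
    simp only at e1 e2 e3 e4
    have hj : j ≤ M - 2 := by omega
    obtain ⟨U, V, hU, hV, hUV, hnorm⟩ := c.collision hji (n i k) (hn0 i k hi)
      (if s i k then 1 else -1) (by split_ifs <;> simp) (hNn i k hi)
      (by rw [e1, e2]; exact hNn j l hj) (v i k) (hv i k hi) (hiν i k hi)
      (hd1 i k hi) (hd2 i k hi) (by rw [e2, e3]; exact hd1 j l hj) (by rw [e3]; exact hd2 j l hj)
      (b i k) (hb2 i k hi) (hb1 i k hi) (by rw [e2, e4]; exact hb1 j l hj)
    rcases Nat.lt_or_ge j i with hlt | hge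
    · exact absurd (c.no_collision hlt hi hUV hnorm) not_false
    · have hij : i = j := le_antisymm hge hji
      subst hij
      refine ⟨rfl, ?_⟩
      by_contra hrne
      have hne : a i k * p i l - a i l * p i k ≠ 0 := by
        intro h
        apply hrne
        rw [Rat.eq_iff_mul_eq_mul]
        simp only [ha, hp] at h
        linarith
      -- V is even and U is even
      have h1 : (2 : ℤ) ∣ U * B - V := by simpa using hUV
      rcases c.parity h1 with ⟨_, _, h8⟩ | ⟨⟨U2, hU2⟩, ⟨V2, hV2⟩⟩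
      · rw [hnorm] at h8
        norm_num at h8
      · have hpell : U2 ^ 2 - A * V2 ^ 2 = 1 := by
          have e5 : U ^ 2 - A * V ^ 2 = 4 * (U2 ^ 2 - A * V2 ^ 2) := by rw [hU2, hV2]; ring
          rw [e5] at hnorm
          norm_num at hnorm
          linarith
        have hV3 : a i k * p i l - a i l * p i k = n i k * V2 := by
          have h3 : (2 : ℤ) ^ i * (2 * (a i k * p i l - a i l * p i k)) = 2 ^ i * (2 * (n i k * V2)) := by
            rw [hV2] at hV
            linear_combination hV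
          have h4 := mul_left_cancel₀ (by positivity : (2 : ℤ) ^ i ≠ 0) h3
          exact mul_left_cancel₀ two_ne_zero h4
        have hV0 : V2 ≠ 0 := by
          rintro rfl
          rw [mul_zero] at hV3
          exact hne hV3
        have hlow := two_pow_le c.A_pos c.notsq M B hBpos c.hAB' U2 V2 hpell hV0
        have hn1 : (1 : ℤ) ≤ n i k := by
          have := hn0 i k hi
          omega
        have h2 : |V2| ≤ |a i k * p i l - a i l * p i k| := by
          rw [hV3, abs_mul, abs_of_nonneg (by omega : (0 : ℤ) ≤ n i k)]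
          nlinarith [abs_nonneg V2]
        have h3 : (|((a i k * p i l - a i l * p i k : ℤ) : ℝ)|) ≤ 2 ^ K := by
          have h4 : ((a i k * p i l - a i l * p i k : ℤ) : ℝ)
              = ((a i k : ℝ) * theta A B i - p i k) * a i l
                - ((a i l : ℝ) * theta A B i - p i l) * a i k := by
            push_cast; ring
          have hak0 : (0 : ℝ) ≤ a i k := by exact_mod_cast (by linarith [ha1 i k] : (0 : ℤ) ≤ a i k)
          have hal0 : (0 : ℝ) ≤ a i l := by exact_mod_cast (by linarith [ha1 i l] : (0 : ℤ) ≤ a i l)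
          have hratio : ∀ k' l' : ℕ, l' < K →
              |(a i k' : ℝ) * theta A B i - p i k'| * a i l' ≤ 2 ^ (K - 1) := by
            intro k' l' hl'
            have hT1 : (0 : ℝ) < 2 ^ (i + k0 + k') + 1 := by positivity
            calc |(a i k' : ℝ) * theta A B i - p i k'| * a i l'
                ≤ (1 / ((2 : ℝ) ^ (i + k0 + k') + 1)) * 2 ^ (i + k0 + l') := by
                  apply mul_le_mul (happ i k') (hT i l') _ (by positivity)
                  exact_mod_cast (by linarith [ha1 i l'] : (0 : ℤ) ≤ a i l')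
              _ ≤ 2 ^ (K - 1) := by
                  rw [one_div, inv_mul_le_iff₀ hT1]
                  have h5 : (2 : ℝ) ^ (i + k0 + l') = 2 ^ (i + k0) * 2 ^ l' := by rw [pow_add]
                  have h6 : (2 : ℝ) ^ l' ≤ 2 ^ (K - 1) := pow_le_pow_right₀ (by norm_num) (by omega)
                  have h7 : (2 : ℝ) ^ (i + k0) ≤ 2 ^ (i + k0 + k') + 1 := by
                    have : (2 : ℝ) ^ (i + k0) ≤ 2 ^ (i + k0 + k') :=
                      pow_le_pow_right₀ (by norm_num) (by omega)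
                    linarith
                  rw [h5]
                  gcongr
          rw [h4]
          calc |((a i k : ℝ) * theta A B i - p i k) * a i l
                - ((a i l : ℝ) * theta A B i - p i l) * a i k|
              ≤ |((a i k : ℝ) * theta A B i - p i k) * a i l|
                + |((a i l : ℝ) * theta A B i - p i l) * a i k| := abs_sub _ _
            _ = |(a i k : ℝ) * theta A B i - p i k| * a i l
                + |(a i l : ℝ) * theta A B i - p i l| * a i k := by
                rw [abs_mul, abs_mul, abs_of_nonneg hak0, abs_of_nonneg hal0]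
            _ ≤ 2 ^ (K - 1) + 2 ^ (K - 1) := add_le_add (hratio k l hl) (hratio l k hk)
            _ = 2 ^ (K - 1 + 1) := by ring
            _ = 2 ^ K := by congr 1; omega
        have h4 : |a i k * p i l - a i l * p i k| ≤ 2 ^ K := by exact_mod_cast h3
        linarith
  have hno : ∀ y z : ℕ × ℕ, y.1 ≤ M - 2 → z.1 ≤ M - 2 → y.2 < K → z.2 < K → f y = f z →
      y.1 = z.1 ∧ r y.1 y.2 = r z.1 z.2 := by
    rintro ⟨i, k⟩ ⟨j, l⟩ hi hj hk hl hfe
    simp only at hi hj hk hl ⊢
    rcases le_total j i with h | h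
    · exact hno1 i k j l h hi hk hl hfe
    · obtain ⟨h1, h2⟩ := hno1 j l i k h hj hl hk hfe.symm
      exact ⟨h1.symm, h2.symm⟩
  -- the count
  set I : Finset (ℕ × ℕ) := Finset.range (M - 1) ×ˢ Finset.range K with hI
  have hmemI : ∀ z ∈ I, z.1 ≤ M - 2 ∧ z.2 < K := by
    intro z hz
    rw [hI, Finset.mem_product, Finset.mem_range, Finset.mem_range] at hz
    exact ⟨by omega, hz.2⟩
  have hmaps : ∀ z ∈ I, f z ∈ labels A x := by
    intro z hz
    obtain ⟨hz1, hz2⟩ := hmemI z hz
    rw [labels, Finset.mem_sigma, Finset.mem_product, Finset.mem_product, Finset.mem_filter,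
      Finset.mem_range, Finset.mem_range, Finset.mem_Ioc]
    simp only [hf]
    refine ⟨⟨Finset.mem_univ _, ?_, ?_⟩, ?_, hbl _ _ hz1, hb2 _ _ hz1⟩
    · exact Nat.pos_of_ne_zero (hn0 _ _ hz1)
    · have := hsize z.1 z.2 hz1 0 (by simpa using hT z.1 z.2)
      simpa using this
    · have := hv z.1 z.2 hz1
      omega
  have hcard : (M - 1) * K = ∑ z ∈ labels A x, (I.filter (fun y => f y = z)).card := by
    have h1 := Finset.card_eq_sum_card_fiberwise (s := I) (t := labels A x) (f := f) hmaps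
    rwa [hI, Finset.card_product, Finset.card_range, Finset.card_range, ← hI] at h1
  have hfib : ∀ z ∈ labels A x, (I.filter (fun y => f y = z)).card ≤ scales x z.1.2 := by
    intro z _
    set F := I.filter (fun y => f y = z) with hF
    rcases F.eq_empty_or_nonempty with h0 | hne
    · rw [h0]; simp
    obtain ⟨y0, hy0F, hy0min⟩ := Finset.exists_min_image F (fun y => y.2) hne
    have hy0' : y0 ∈ I ∧ f y0 = z := by
      rw [hF, Finset.mem_filter] at hy0F; exact hy0F
    obtain ⟨hy01, hy02⟩ := hmemI y0 hy0'.1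
    rw [scales]
    refine Finset.card_le_card_of_injOn (fun y => y.2 - y0.2) ?_ ?_
    · intro y hy
      have hy' : y ∈ I ∧ f y = z := by
        rw [Finset.mem_coe, hF, Finset.mem_filter] at hy; exact hy
      obtain ⟨hy1, hy2⟩ := hmemI y hy'.1
      have hle : y0.2 ≤ y.2 := hy0min y hy
      obtain ⟨hii, hrr⟩ := hno y y0 hy1 hy01 hy2 hy02 (by rw [hy'.2, hy0'.2])
      have hnz : n y.1 y.2 = z.1.2 := by rw [← hy'.2]
      have h1 : 2 ^ (y.2 - y0.2) * n y.1 y.2 ≤ x := by
        apply hsize y.1 y.2 hy1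
        have h2 : (a y.1 y.2 : ℝ) ≤ 2 ^ (y.1 + k0 + y0.2) := by
          have h3 : a y.1 y.2 = a y0.1 y0.2 := by
            simp only [ha]; rw [hrr]
          rw [h3, hii]
          exact hT y0.1 y0.2
        calc (a y.1 y.2 : ℝ) * 2 ^ (y.2 - y0.2) ≤ 2 ^ (y.1 + k0 + y0.2) * 2 ^ (y.2 - y0.2) := by gcongr
          _ = 2 ^ (y.1 + k0 + y.2) := by rw [← pow_add]; congr 1; omega
      rw [hnz] at h1
      have hpos : 0 < z.1.2 := by rw [← hnz]; exact Nat.pos_of_ne_zero (hn0 _ _ hy1)
      simp only [Finset.coe_filter, Finset.mem_range, Set.mem_ofPred_eq]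
      refine ⟨?_, h1⟩
      have h3 : y.2 - y0.2 < 2 ^ (y.2 - y0.2) := Nat.lt_two_pow_self
      have h4 : 2 ^ (y.2 - y0.2) ≤ 2 ^ (y.2 - y0.2) * z.1.2 := Nat.le_mul_of_pos_right _ hpos
      omega
    · intro y hy y' hy' hyy
      have hyI : y ∈ I ∧ f y = z := by
        rw [Finset.mem_coe, hF, Finset.mem_filter] at hy; exact hy
      have hyI' : y' ∈ I ∧ f y' = z := by
        rw [Finset.mem_coe, hF, Finset.mem_filter] at hy'; exact hy'
      have hle : y0.2 ≤ y.2 := hy0min y hy
      have hle' : y0.2 ≤ y'.2 := hy0min y' hy'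
      simp only at hyy
      obtain ⟨hy1, hy2⟩ := hmemI y hyI.1
      obtain ⟨hy1', hy2'⟩ := hmemI y' hyI'.1
      obtain ⟨hii, _⟩ := hno y y' hy1 hy1' hy2 hy2' (by rw [hyI.2, hyI'.2])
      exact Prod.ext hii (by omega)
  have h1 : (M - 1) * K ≤ 4 * ∑ n ∈ Finset.Ioc 0 x, (Nat.divisors n).card * scales x n := by
    calc (M - 1) * K = ∑ z ∈ labels A x, (I.filter (fun y => f y = z)).card := hcard
      _ ≤ ∑ z ∈ labels A x, scales x z.1.2 := Finset.sum_le_sum hfib
      _ ≤ _ := sum_labels hA x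
  have h5 := div_sum x
  have h6 : (((M - 1) * K : ℕ) : ℝ)
      ≤ 4 * ((∑ n ∈ Finset.Ioc 0 x, (Nat.divisors n).card * scales x n : ℕ) : ℝ) := by
    exact_mod_cast h1
  linarith

end Ctx

end Pool.Agent.helper38.SqFree2
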