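import Mathlib
import Pool.Agent.helper38.SqFree2.Count3
import Pool.Agent.helper69.SqFree.Main

namespace Pool.Agent.helper38.SqFree2

open Pool.Agent.helper69.SqFree (not_sq_add_one)

lemma pow_four_le (M : ℕ) : M ^ 4 ≤ 256 * 2 ^ M := by
  have h1 : M / 4 < 2 ^ (M / 4) := Nat.lt_two_pow_self
  have h2 : M ≤ 4 * 2 ^ (M / 4) := by omega
  calc M ^ 4 ≤ (4 * 2 ^ (M / 4)) ^ 4 := Nat.pow_le_pow_left h2 4
    _ = 256 * 2 ^ (M / 4 * 4) := by rw [mul_pow, ← pow_mul]; norm_num
    _ ≤ 256 * 2 ^ M := by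
        apply Nat.mul_le_mul_left
        exact Nat.pow_le_pow_right (by norm_num) (by omega)

namespace Ctx

variable {M A : ℕ} {B : ℤ}

theorem main_sq (c : Ctx M A B) (hA : Squarefree A) :
    (M : ℝ) ^ 2 ≤ 25 * √(A : ℝ) * Real.log A := by
  by_contra hcon
  push Not at hcon
  have hM := c.hM
  have hB := c.hB
  have hMr : (8 : ℝ) ≤ M := by exact_mod_cast hM
  have hA17 : (17 : ℝ) ≤ A := by exact_mod_cast c.A_ge
  set w := √(A : ℝ) with hw
  have hw0 : 0 < w := c.w_pos
  have hw2 : w ^ 2 = A := Real.sq_sqrt (by positivity)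
  set L := Real.log A with hL
  have hl2a := Real.log_two_gt_d9
  have hl2b := Real.log_two_lt_d9
  have hL1 : 2.772 ≤ L := by
    have h1 : Real.log 16 ≤ L := Real.log_le_log (by norm_num) (by linarith)
    have h2 : Real.log 16 = 4 * Real.log 2 := by
      have : (16 : ℝ) = 2 ^ 4 := by norm_num
      rw [this, Real.log_pow]; norm_num
    linarith
  -- `A ≤ 2 ^ M`
  have h25 : 25 * w ≤ (M : ℝ) ^ 2 := by nlinarith
  have hA1 : (A : ℝ) ≤ 2 ^ M := by
    have h1 : (25 * w) ^ 2 ≤ ((M : ℝ) ^ 2) ^ 2 := pow_le_pow_left₀ (by positivity) h25 2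
    have h2 : (M : ℝ) ^ 4 ≤ 256 * 2 ^ M := by exact_mod_cast pow_four_le M
    have h3 : ((M : ℝ) ^ 2) ^ 2 = (M : ℝ) ^ 4 := by ring
    have h4 : (25 * w) ^ 2 = 625 * A := by rw [mul_pow, hw2]; norm_num
    have h5 : (0 : ℝ) < 2 ^ M := by positivity
    rw [h3, h4] at h1
    linarith
  have hA2 : (A : ℤ) ≤ 2 ^ M := by exact_mod_cast hA1
  have hB2 : (2 : ℤ) ^ (M / 2) ≤ B := by
    by_contra hc
    push Not at hc
    have h9 := c.hAB'
    have h1 : B ^ 2 ≤ (2 ^ (M / 2)) ^ 2 := pow_le_pow_left₀ hB.le hc.le 2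
    have h2 : ((2 : ℤ) ^ (M / 2)) ^ 2 = 2 ^ M := by
      rw [← pow_mul]; congr 1
      obtain ⟨k, hk⟩ := c.hMe
      omega
    rw [h2] at h1
    have h3 : (A : ℤ) * B ^ 2 ≤ 2 ^ M * 2 ^ M := by
      have : (0 : ℤ) ≤ A := by positivity
      have h4 : (0 : ℤ) ≤ B ^ 2 := sq_nonneg B
      have h5 : (0 : ℤ) < 2 ^ M := by positivity
      nlinarith
    nlinarith
  have hK : (2 : ℤ) ^ (M + M / 2) < 2 * 2 ^ M * B := by
    rw [pow_add]
    have h5 : (0 : ℤ) < 2 ^ M := by positivity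
    nlinarith
  have hcount := c.count hA (M + M / 2) hK
  set x := Nat.sqrt (9 * A) with hx
  have hx3w : (x : ℝ) ≤ 3 * w := by
    have h1 : (x : ℝ) ^ 2 ≤ (3 * w) ^ 2 := by
      have h2 : x ^ 2 ≤ 9 * A := Nat.sqrt_le' (9 * A)
      rw [mul_pow, hw2]
      norm_num
      exact_mod_cast h2
    exact le_of_sq_le_sq h1 (by positivity)
  have hx1 : 1 ≤ x := by
    rw [hx, Nat.le_sqrt']
    have := c.A_pos
    omega
  have hx1' : (1 : ℝ) ≤ x := by exact_mod_cast hx1
  have hlogx : 0 ≤ Real.log x := Real.log_nonneg hx1'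
  have hlogw : Real.log w = L / 2 := Real.log_sqrt (by positivity)
  have hlog3 : Real.log 3 ≤ 1.1091 := by
    have h8 : Real.log ((3 : ℝ) ^ 5) ≤ Real.log ((2 : ℝ) ^ 8) :=
      Real.log_le_log (by norm_num) (by norm_num)
    rw [Real.log_pow, Real.log_pow] at h8
    push_cast at h8
    linarith
  have hlogx2 : Real.log x ≤ 1.1091 + L / 2 := by
    have h8 := Real.log_le_log (by linarith) hx3w
    rw [Real.log_mul (by norm_num) hw0.ne', hlogw] at h8
    linarith
  have hY : 8 * (x : ℝ) * (1 + Real.log x) ≤ 24 * w * (1 + (1.1091 + L / 2)) := by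
    have h9 : 8 * (x : ℝ) ≤ 24 * w := by linarith
    calc 8 * (x : ℝ) * (1 + Real.log x) ≤ 24 * w * (1 + Real.log x) := by gcongr
      _ ≤ _ := by gcongr
  have hKr : (((M - 1) * (M + M / 2) : ℕ) : ℝ) = ((M : ℝ) - 1) * (3 / 2 * M) := by
    obtain ⟨k, hk⟩ := c.hMe
    have h1 : M / 2 = k := by omega
    rw [h1]
    push_cast [Nat.cast_sub (by omega : 1 ≤ M)]
    have h2 : (M : ℝ) = k + k := by exact_mod_cast hk
    rw [h2]; ring
  rw [hKr] at hcount
  have h10 : ((M : ℝ) - 1) * (3 / 2 * M) ≤ 24 * w * (1 + (1.1091 + L / 2)) := hcount.trans hY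
  have h11 : 24 * w * (1 + (1.1091 + L / 2)) ≤ 30.3 * (w * L) := by nlinarith
  have h12 : 25 * (w * L) < (M : ℝ) ^ 2 := by linarith
  nlinarith

end Ctx

/-- The main bound. -/
theorem even_bound (M A B : ℕ) (hM : 8 ≤ M) (he : Even M) (h : 4 ^ M + 1 = A * B ^ 2) :
    (M : ℝ) ^ 2 ≤ 25 * √(A : ℝ) * Real.log A := by
  obtain ⟨a, b, hab, hsq⟩ := Nat.sq_mul_squarefree A
  have hA0 : 0 < A := by
    rcases Nat.eq_zero_or_pos A with h0 | h0
    · subst h0; simp at h
    · exact h0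
  have hB0 : 0 < B := by
    rcases Nat.eq_zero_or_pos B with h0 | h0
    · subst h0; simp at h
    · exact h0
  have ha0 : 0 < a := by
    rcases Nat.eq_zero_or_pos a with h0 | h0
    · subst h0; simp at hab; omega
    · exact h0
  have hb0 : 0 < b := by
    rcases Nat.eq_zero_or_pos b with h0 | h0
    · subst h0; simp at hab; omega
    · exact h0
  have haA : a ≤ A := by
    rw [← hab]; exact Nat.le_mul_of_pos_left _ (by positivity)
  have c : Ctx M a ((b * B : ℕ) : ℤ) := by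
    refine ⟨hM, he, by exact_mod_cast Nat.mul_pos hb0 hB0, ?_⟩
    have h1 : a * (b * B) ^ 2 = 4 ^ M + 1 := by rw [h, ← hab]; ring
    exact_mod_cast h1
  have h1 := c.main_sq hsq
  have haA' : (a : ℝ) ≤ A := by exact_mod_cast haA
  have ha1 : (1 : ℝ) ≤ a := by exact_mod_cast ha0
  refine h1.trans ?_
  have h2 : 0 ≤ Real.log a := Real.log_nonneg ha1
  have h3 : Real.log a ≤ Real.log A := Real.log_le_log (by linarith) haA'
  have h4 : √(a : ℝ) ≤ √(A : ℝ) := Real.sqrt_le_sqrt haA'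
  gcongr

lemma small_case (A : ℕ) (h : 2 ≤ A) : (64 : ℝ) ≤ 100 * √(A : ℝ) * Real.log A := by
  have h1 : (2 : ℝ) ≤ A := by exact_mod_cast h
  have h2 : 1 ≤ √(A : ℝ) := by rw [Real.one_le_sqrt]; linarith
  have h3 : Real.log 2 ≤ Real.log A := Real.log_le_log (by norm_num) h1
  have h4 := Real.log_two_gt_d9
  nlinarith

theorem fermat_bound (m A B : ℕ) (h : Nat.fermatNumber m = A * B ^ 2) :
    (4 : ℝ) ^ m ≤ 100 * √(A : ℝ) * Real.log A := by
  rw [Nat.fermatNumber] at h
  rcases Nat.lt_or_ge m 4 with hm | hm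
  · have hA2 : 2 ≤ A := by
      by_contra hc
      push Not at hc
      rcases Nat.eq_zero_or_pos A with h0 | h0
      · subst h0; simp at h
      · have hA1 : A = 1 := by omega
        subst hA1
        rw [one_mul] at h
        have hB : B < 17 := by
          by_contra hc
          push Not at hc
          have : 289 ≤ B ^ 2 := by nlinarith
          rw [← h] at this
          interval_cases m <;> norm_num at this
        interval_cases m <;> interval_cases B <;> omega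
    have h1 := small_case A hA2
    have h2 : (4 : ℝ) ^ m ≤ 64 := by
      calc (4 : ℝ) ^ m ≤ 4 ^ 3 := pow_le_pow_right₀ (by norm_num) (by omega)
        _ = 64 := by norm_num
    linarith
  · have h1 : 4 ^ (2 ^ (m - 1)) + 1 = A * B ^ 2 := by
      rw [← h]
      have : (4 : ℕ) = 2 ^ 2 := by norm_num
      rw [this, ← pow_mul, ← pow_succ']
      congr 3
      omega
    have h8 : 8 ≤ 2 ^ (m - 1) := by
      calc 8 = 2 ^ 3 := by norm_num
        _ ≤ 2 ^ (m - 1) := Nat.pow_le_pow_right (by norm_num) (by omega)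
    have he : Even (2 ^ (m - 1)) := (Nat.even_pow).mpr ⟨even_two, by omega⟩
    have h2 := even_bound _ A B h8 he h1
    have h3 : (4 : ℝ) ^ m = 4 * (((2 ^ (m - 1) : ℕ)) : ℝ) ^ 2 := by
      push_cast
      rw [← pow_mul, mul_comm (m - 1) 2, pow_mul]
      norm_num
      rw [← pow_succ']
      congr 1; omega
    rw [h3]
    linarith

theorem nn_bound (j A B : ℕ) (h : (2 ^ j) ^ (2 ^ j) + 1 = A * B ^ 2) :
    ((j : ℝ) * 2 ^ j) ^ 2 ≤ 100 * √(A : ℝ) * Real.log A := by
  have hA0 : 0 < A := by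
    rcases Nat.eq_zero_or_pos A with h0 | h0
    · subst h0; simp at h
    · exact h0
  have hA1 : (1 : ℝ) ≤ A := by exact_mod_cast hA0
  have hlog : 0 ≤ Real.log A := Real.log_nonneg hA1
  rcases Nat.eq_zero_or_pos j with h0 | hj
  · subst h0
    have h2 : (0 : ℝ) ≤ 100 * √(A : ℝ) * Real.log A := by positivity
    simpa using h2
  rcases Nat.lt_or_ge j 3 with hj3 | hj3
  · have hA2 : 2 ≤ A := by
      by_contra hc
      have hA1 : A = 1 := by omega
      subst hA1
      rw [one_mul] at h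
      have hB : B < 17 := by
        by_contra hc
        push Not at hc
        have : 289 ≤ B ^ 2 := by nlinarith
        rw [← h] at this
        interval_cases j <;> norm_num at this
      interval_cases j <;> interval_cases B <;> omega
    have h1 := small_case A hA2
    have h2 : ((j : ℝ) * 2 ^ j) ^ 2 ≤ 64 := by
      interval_cases j <;> norm_num
    linarith
  · obtain ⟨i, rfl⟩ : ∃ i, j = i + 1 := ⟨j - 1, by omega⟩
    have h1 : 4 ^ ((i + 1) * 2 ^ i) + 1 = A * B ^ 2 := by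
      rw [← h, ← pow_mul]
      have : (4 : ℕ) = 2 ^ 2 := by norm_num
      rw [this, ← pow_mul]
      congr 2
      rw [pow_succ]; ring
    have h4 : 4 ≤ 2 ^ i := by
      calc 4 = 2 ^ 2 := by norm_num
        _ ≤ 2 ^ i := Nat.pow_le_pow_right (by norm_num) (by omega)
    have h8 : 8 ≤ (i + 1) * 2 ^ i := by nlinarith
    have he : Even ((i + 1) * 2 ^ i) :=
      Even.mul_left ((Nat.even_pow).mpr ⟨even_two, by omega⟩) _
    have h2 := even_bound _ A B h8 he h1
    have h3 : (((i + 1 : ℕ) : ℝ) * 2 ^ (i + 1)) ^ 2 = 4 * ((((i + 1) * 2 ^ i : ℕ)) : ℝ) ^ 2 := by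
      push_cast
      rw [pow_succ]; ring
    rw [h3]
    linarith

end Pool.Agent.helper38.SqFree2
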