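import Mathlib
import Pool.Agent.helper38.SqFree2.Final

namespace Pool.Agent.helper38.SqFree2

namespace Ctx

variable {M A : ℕ} {B : ℤ}

/-- Powers of two represented by odd `u, v`. -/
theorem odd_rep (c : Ctx M A B) {k : ℕ} {u v : ℤ} (hu : Odd u) (hv : Odd v)
    (h : |u ^ 2 - A * v ^ 2| = 2 ^ k) : M + 1 ≤ k := by
  by_contra hc
  push Not at hc
  have hM := c.hM
  have h9 := c.hAB'
  have hBo := c.B_odd
  have huB : Odd (u * B) := hu.mul hBo
  have he1 : Even (u * B - v) := huB.sub_odd hv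
  have he2 : Even (u * B + v) := huB.add_odd hv
  have h8 : (8 : ℤ) ∣ u ^ 2 - A * v ^ 2 := by
    rcases c.parity (U := u) (V := v) (even_iff_two_dvd.mp he1) with ⟨_, _, h1⟩ | ⟨h1, _⟩
    · exact h1
    · exact absurd h1 (Int.not_even_iff_odd.mpr hu)
  have h8' : (8 : ℤ) ∣ 2 ^ k := by rw [← h]; exact (dvd_abs _ _).mpr h8
  have hk3 : 3 ≤ k := by
    by_contra hc3
    push Not at hc3
    interval_cases k <;> norm_num at h8'
  have hsgn : u ^ 2 - A * v ^ 2 = 2 ^ (k - 2 + 2) ∨ u ^ 2 - A * v ^ 2 = -2 ^ (k - 2 + 2) := by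
    have e : k - 2 + 2 = k := by omega
    rw [e]
    exact eq_or_eq_neg_of_abs_eq h
  have hk1 : k - 2 + 1 = k - 1 := by omega
  have hprod : (2 : ℤ) ^ k ∣ (u * B - v) * (u * B + v) := by
    have h1 : (2 : ℤ) ^ k ∣ (2 ^ M) ^ 2 := by
      rw [four_pow_eq]; exact pow_dvd_pow 2 (by omega)
    have h2 : (2 : ℤ) ^ k ∣ u ^ 2 - A * v ^ 2 := by
      rw [← dvd_abs, h]
    have e : (u * B - v) * (u * B + v) = B ^ 2 * (u ^ 2 - A * v ^ 2) + v ^ 2 * (2 ^ M) ^ 2 := by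
      linear_combination (-v ^ 2) * h9
    rw [e]
    exact dvd_add (h2.mul_left _) (h1.mul_left _)
  obtain ⟨s, hs⟩ := he1
  obtain ⟨t, ht⟩ := he2
  have hst : s + t = u * B := by linarith
  have h2k : (2 : ℤ) ^ k = 2 * 2 ^ (k - 1) := by rw [← pow_succ']; congr 1; omega
  have h4 : (2 : ℤ) ^ (k - 1) ∣ s * (2 * t) := by
    have e : (u * B - v) * (u * B + v) = 2 * (s * (2 * t)) := by rw [hs, ht]; ring
    rw [e, h2k] at hprod
    exact (mul_dvd_mul_iff_left (two_ne_zero (α := ℤ))).mp hprod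
  rcases Int.even_or_odd s with hse | hso
  · -- `s` even, `t` odd
    have hto : Odd t := by
      by_contra hte
      rw [Int.not_odd_iff_even] at hte
      rw [← hst] at huB
      exact (Int.not_even_iff_odd.mpr huB) (hse.add hte)
    have h5 : IsCoprime ((2 : ℤ) ^ (k - 1)) t := by
      apply IsCoprime.pow_left
      obtain ⟨j, hj⟩ := hto
      exact ⟨-j, 1, by rw [hj]; ring⟩
    have h6 : (2 : ℤ) ^ (k - 1) ∣ (u * B - v) := by
      apply h5.dvd_of_dvd_mul_right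
      have e : (u * B - v) * t = s * (2 * t) := by rw [hs]; ring
      rw [e]; exact h4
    exact c.order (k - 2) (by omega) (by omega) u v ⟨hsgn, by rw [hk1]; exact h6⟩
  · have h5 : IsCoprime ((2 : ℤ) ^ (k - 1)) s := by
      apply IsCoprime.pow_left
      obtain ⟨j, hj⟩ := hso
      exact ⟨-j, 1, by rw [hj]; ring⟩
    have h6 : (2 : ℤ) ^ (k - 1) ∣ (u * B + v) := by
      apply h5.dvd_of_dvd_mul_left
      have e : s * (u * B + v) = s * (2 * t) := by rw [ht]; ring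
      rw [e]; exact h4
    refine c.order (k - 2) (by omega) (by omega) u (-v) ⟨by rw [neg_sq]; exact hsgn, ?_⟩
    rw [hk1, sub_neg_eq_add]
    exact h6

end Ctx

theorem fermat_rep (m A B : ℕ) (hm : 4 ≤ m) (h : Nat.fermatNumber m = A * B ^ 2) (k : ℕ) (u v : ℤ)
    (hu : Odd u) (hv : Odd v) (hk : |u ^ 2 - A * v ^ 2| = 2 ^ k) : 2 ^ (m - 1) + 1 ≤ k := by
  rw [Nat.fermatNumber] at h
  have hB0 : 0 < B := by
    rcases Nat.eq_zero_or_pos B with h0 | h0
    · subst h0; simp at h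
    · exact h0
  have h1 : 4 ^ (2 ^ (m - 1)) + 1 = A * B ^ 2 := by
    rw [← h]
    have : (4 : ℕ) = 2 ^ 2 := by norm_num
    rw [this, ← pow_mul, ← pow_succ']
    congr 3
    omega
  have h8 : 8 ≤ 2 ^ (m - 1) := by
    calc 8 = 2 ^ 3 := by norm_num
      _ ≤ 2 ^ (m - 1) := Nat.pow_le_pow_right (by norm_num) (by omega)
  have he : Even (2 ^ (m - 1)) := (Nat.even_pow).mpr ⟨even_two, by omega⟩
  have c : Ctx (2 ^ (m - 1)) A (B : ℤ) :=
    ⟨h8, he, by exact_mod_cast hB0, by exact_mod_cast h1.symm⟩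
  exact c.odd_rep hu hv hk

theorem nn_rep (j A B : ℕ) (hj : 3 ≤ j) (h : (2 ^ j) ^ (2 ^ j) + 1 = A * B ^ 2) (k : ℕ) (u v : ℤ)
    (hu : Odd u) (hv : Odd v) (hk : |u ^ 2 - A * v ^ 2| = 2 ^ k) : j * 2 ^ (j - 1) + 1 ≤ k := by
  have hB0 : 0 < B := by
    rcases Nat.eq_zero_or_pos B with h0 | h0
    · subst h0; simp at h
    · exact h0
  obtain ⟨i, rfl⟩ : ∃ i, j = i + 1 := ⟨j - 1, by omega⟩
  simp only [Nat.add_sub_cancel]
  have h1 : 4 ^ ((i + 1) * 2 ^ i) + 1 = A * B ^ 2 := by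
    rw [← h, ← pow_mul]
    have : (4 : ℕ) = 2 ^ 2 := by norm_num
    rw [this, ← pow_mul]
    congr 2
    rw [pow_succ]; ring
  have h4 : 4 ≤ 2 ^ i := by
    calc 4 = 2 ^ 2 := by norm_num
      _ ≤ 2 ^ i := Nat.pow_le_pow_right (by norm_num) (by omega)
  have h8 : 8 ≤ (i + 1) * 2 ^ i := by nlinarith
  have he : Even ((i + 1) * 2 ^ i) :=
    Even.mul_left ((Nat.even_pow).mpr ⟨even_two, by omega⟩) _
  have c : Ctx ((i + 1) * 2 ^ i) A (B : ℤ) :=
    ⟨h8, he, by exact_mod_cast hB0, by exact_mod_cast h1.symm⟩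
  exact c.odd_rep hu hv hk

end Pool.Agent.helper38.SqFree2
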